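import Mathlib

/-! Two disjoint continua in the closed upper half plane cannot have interlaced points on the
boundary line. -/

open Set Topology Filter Metric Complex

namespace Pool.Agent.MP_a3a891_gt.H97

theorem edge {L : ℝ → ℂ} (hL : Continuous L) (u : ℂ) (hu : u ≠ 0)
    (h : ∀ s, u * exp (L s) ∈ slitPlane) :
    (L 1).im - (L 0).im = arg (u * exp (L 1)) - arg (u * exp (L 0)) := by
  have hc : Continuous fun s => L s - log (u * exp (L s)) :=
    hL.sub (Continuous.clog (by fun_prop) h)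
  have he : ∀ s, exp (L s - log (u * exp (L s))) = u⁻¹ := fun s => by
    rw [exp_sub, exp_log (mul_ne_zero hu (exp_ne_zero _))]
    field_simp
  have := isCoveringMap_exp.const_of_comp hc
    (fun a b => Subtype.ext (by simp only [he])) 1 0
  have h2 := congrArg Complex.im this
  simp only [sub_im, log_im] at h2
  linarith

theorem slit_up {z : ℂ} (h0 : z ≠ 0) (h : 0 ≤ z.im) : -I * z ∈ slitPlane := by
  rw [mem_slitPlane_iff]
  rcases h.eq_or_lt with h | h
  · right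
    intro h'
    apply h0
    apply Complex.ext
    · simpa using h'
    · simpa using h.symm
  · left; simpa using h

theorem slit_down {z : ℂ} (h0 : z ≠ 0) (h : z.im ≤ 0) : I * z ∈ slitPlane := by
  have := slit_up (neg_ne_zero.2 h0) (by simpa using h)
  simpa using this

theorem arg_I_pos {r : ℝ} (h : 0 < r) : arg (I * (r : ℂ)) = Real.pi / 2 := by
  rw [mul_comm, arg_real_mul _ h, arg_I]

theorem arg_I_neg {r : ℝ} (h : r < 0) : arg (I * (r : ℂ)) = -(Real.pi / 2) := by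
  have : I * (r : ℂ) = ((-r : ℝ) : ℂ) * (-I) := by push_cast; ring
  rw [this, arg_real_mul _ (neg_pos.2 h), arg_neg_I]

theorem cross_paths {γ η : ℝ → ℝ × ℝ} (hγ : Continuous γ) (hη : Continuous η)
    (h1 : ∀ s, 0 ≤ (γ s).2) (h2 : ∀ t, 0 ≤ (η t).2) (hne : ∀ s t, γ s ≠ η t) {a b c d : ℝ}
    (ha : γ 0 = (a, 0)) (hb : γ 1 = (b, 0)) (hc : η 0 = (c, 0)) (hd : η 1 = (d, 0))
    (hac : a < c) (hcb : c < b) (hbd : b < d) : False := by
  set φ : ℝ × ℝ → ℂ := fun p =>
    (((γ p.1).1 - (η p.2).1 : ℝ) : ℂ) + (((γ p.1).2 - (η p.2).2 : ℝ) : ℂ) * I with hφ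
  have hφc : Continuous φ := by fun_prop
  have him : ∀ p, (φ p).im = (γ p.1).2 - (η p.2).2 := fun p => by simp [hφ]
  have h0 : ∀ p, φ p ≠ 0 := fun p h => by
    apply hne p.1 p.2
    have e1 := congrArg Complex.re h
    have e2 := congrArg Complex.im h
    simp [hφ] at e1 e2
    exact Prod.ext (by linarith) (by linarith)
  obtain ⟨L, ⟨-, hL⟩, -⟩ := isCoveringMapOn_exp.existsUnique_continuousMap_lifts
    (⟨φ, hφc⟩ : C(ℝ × ℝ, ℂ)) (a₀ := (0, 0)) (exp_log (h0 _)) (fun p => h0 p)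
  have hLe : ∀ p, exp (L p) = φ p := fun p => congrFun hL p
  have hI : (I : ℂ) ≠ 0 := I_ne_zero
  have e1 := edge (L := fun s => L (s, 0)) (by fun_prop) (-I) (neg_ne_zero.2 hI) (fun s => by
    rw [hLe]; exact slit_up (h0 _) (by rw [him, hc]; simpa using h1 s))
  have e2 := edge (L := fun t => L (1, t)) (by fun_prop) I hI (fun t => by
    rw [hLe]; exact slit_down (h0 _) (by rw [him, hb]; simpa using h2 t))
  have e3 := edge (L := fun t => L (0, t)) (by fun_prop) I hI (fun t => by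
    rw [hLe]; exact slit_down (h0 _) (by rw [him, ha]; simpa using h2 t))
  have e4 := edge (L := fun s => L (s, 1)) (by fun_prop) (-I) (neg_ne_zero.2 hI) (fun s => by
    rw [hLe]; exact slit_up (h0 _) (by rw [him, hd]; simpa using h1 s))
  have v00 : φ (0, 0) = ((a - c : ℝ) : ℂ) := by simp [hφ, ha, hc]
  have v10 : φ (1, 0) = ((b - c : ℝ) : ℂ) := by simp [hφ, hb, hc]
  have v01 : φ (0, 1) = ((a - d : ℝ) : ℂ) := by simp [hφ, ha, hd]
  have v11 : φ (1, 1) = ((b - d : ℝ) : ℂ) := by simp [hφ, hb, hd]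
  have neg : ∀ r : ℝ, -I * (r : ℂ) = I * ((-r : ℝ) : ℂ) := fun r => by push_cast; ring
  simp only [hLe, v00, v10, v01, v11, neg] at e1 e2 e3 e4
  rw [arg_I_neg (by linarith), arg_I_pos (by linarith)] at e1
  rw [arg_I_neg (by linarith), arg_I_pos (by linarith)] at e2
  rw [arg_I_neg (by linarith), arg_I_neg (by linarith)] at e3
  rw [arg_I_pos (by linarith), arg_I_pos (by linarith)] at e4
  linarith [Real.pi_pos]

theorem path_near {A : Set (ℝ × ℝ)} (hA : IsPreconnected A) (hA0 : ∀ z ∈ A, 0 ≤ z.2) {ε : ℝ}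
    (hε : 0 < ε) {a b : ℝ} (ha : (a, 0) ∈ A) (hb : (b, 0) ∈ A) :
    ∃ γ : ℝ → ℝ × ℝ, Continuous γ ∧ (∀ s, 0 ≤ (γ s).2) ∧ (∀ s, γ s ∈ thickening ε A) ∧
      γ 0 = (a, 0) ∧ γ 1 = (b, 0) := by
  have hpre : IsPreconnected (thickening ε A) := by
    refine isPreconnected_of_forall (a, 0) fun y hy => ?_
    obtain ⟨z, hz, hyz⟩ := mem_thickening_iff.1 hy
    refine ⟨A ∪ ball z ε, union_subset (self_subset_thickening hε A)
      (ball_subset_thickening hz ε), Or.inl ha, Or.inr hyz, ?_⟩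
    exact hA.union z hz (mem_ball_self hε) (convex_ball z ε).isPreconnected
  have hpc : IsPathConnected (thickening ε A) :=
    isOpen_thickening.isConnected_iff_isPathConnected.1 ⟨⟨_, self_subset_thickening hε A ha⟩, hpre⟩
  obtain ⟨p, hp⟩ := hpc.joinedIn _ (self_subset_thickening hε A ha) _
    (self_subset_thickening hε A hb)
  refine ⟨fun s => ((p.extend s).1, max (p.extend s).2 0), by fun_prop,
    fun s => le_max_right _ _, fun s => ?_, by simp, by simp⟩
  have hs : p.extend s ∈ thickening ε A := by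
    obtain ⟨t, ht⟩ : p.extend s ∈ range p := p.extend_range ▸ mem_range_self s
    exact ht ▸ hp t
  obtain ⟨z, hz, hd⟩ := mem_thickening_iff.1 hs
  refine mem_thickening_iff.2 ⟨z, hz, lt_of_le_of_lt ?_ hd⟩
  rw [Prod.dist_eq, Prod.dist_eq]
  refine max_le_max le_rfl ?_
  have := abs_max_sub_max_le_abs (p.extend s).2 z.2 0
  rwa [max_eq_left (hA0 z hz)] at this

theorem cross {A B : Set (ℝ × ℝ)} (hA : IsCompact A) (hB : IsCompact B) (hAc : IsPreconnected A)
    (hBc : IsPreconnected B) (hA0 : ∀ z ∈ A, 0 ≤ z.2) (hB0 : ∀ z ∈ B, 0 ≤ z.2)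
    (hd : Disjoint A B) {a b c d : ℝ} (ha : (a, 0) ∈ A) (hb : (b, 0) ∈ A) (hc : (c, 0) ∈ B)
    (hd' : (d, 0) ∈ B) (hac : a < c) (hcb : c < b) (hbd : b < d) : False := by
  obtain ⟨ε, hε, h⟩ := hd.exists_thickenings hA hB.isClosed
  obtain ⟨γ, g1, g2, g3, g4, g5⟩ := path_near hAc hA0 hε ha hb
  obtain ⟨η, k1, k2, k3, k4, k5⟩ := path_near hBc hB0 hε hc hd'
  exact cross_paths g1 k1 g2 k2 (fun s t he => disjoint_left.1 h (g3 s) (he ▸ k3 t))
    g4 g5 k4 k5 hac hcb hbd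

/-- The unit square. -/
def box : Set (ℝ × ℝ) := {z | 0 ≤ z.1 ∧ z.1 ≤ 1 ∧ 0 ≤ z.2 ∧ z.2 ≤ 1}

/-- A continuum that spans a point of a disjoint continuum is higher than it. -/
theorem higher {A B : Set (ℝ × ℝ)} (hA : IsCompact A) (hB : IsCompact B) (hAc : IsPreconnected A)
    (hBc : IsPreconnected B) (hA0 : A ⊆ box) (hB0 : B ⊆ box) (hd : Disjoint A B) {a b c : ℝ}
    (ha : (a, 0) ∈ A) (hb : (b, 0) ∈ A) (hc : (c, 0) ∈ B) (hac : a < c) (hcb : c < b)
    {z : ℝ × ℝ} (hz : z ∈ B) : ∃ w ∈ A, z.2 < w.2 := by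
  by_contra hcon
  push Not at hcon
  obtain ⟨z1, z2, z3, z4⟩ := hB0 hz
  set R1 : Set (ℝ × ℝ) := {z.1} ×ˢ Icc z.2 2
  set R2 : Set (ℝ × ℝ) := Icc 0 2 ×ˢ {2}
  set R3 : Set (ℝ × ℝ) := {2} ×ˢ Icc 0 2
  have c1 : IsPreconnected R1 := isPreconnected_singleton.prod isPreconnected_Icc
  have c2 : IsPreconnected R2 := isPreconnected_Icc.prod isPreconnected_singleton
  have c3 : IsPreconnected R3 := isPreconnected_singleton.prod isPreconnected_Icc
  have p1 : IsPreconnected (B ∪ R1) := hBc.union z hz ⟨rfl, le_rfl, by linarith⟩ c1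
  have p2 : IsPreconnected (B ∪ R1 ∪ R2) :=
    p1.union (z.1, 2) (Or.inr ⟨rfl, by linarith, le_rfl⟩) ⟨⟨z1, by linarith⟩, rfl⟩ c2
  have p3 : IsPreconnected (B ∪ R1 ∪ R2 ∪ R3) :=
    p2.union (2, 2) (Or.inr ⟨⟨by norm_num, le_rfl⟩, rfl⟩) ⟨rfl, by norm_num, le_rfl⟩ c3
  refine cross hA (((hB.union (isCompact_singleton.prod isCompact_Icc)).union
    (isCompact_Icc.prod isCompact_singleton)).union (isCompact_singleton.prod isCompact_Icc))
    hAc p3 (fun w hw => (hA0 hw).2.2.1) ?_ ?_ ha hb (Or.inl (Or.inl (Or.inl hc)))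
    (d := 2) (Or.inr ⟨rfl, le_rfl, by norm_num⟩) hac hcb (by linarith [(hA0 hb).2.1])
  · rintro w (((h | h) | h) | h)
    · exact (hB0 h).2.2.1
    · exact z3.trans h.2.1
    · rw [show w.2 = 2 from h.2]; norm_num
    · exact h.2.1
  · rw [disjoint_left]
    rintro w hw (((h | h) | h) | h)
    · exact disjoint_left.1 hd hw h
    · have : w = z := Prod.ext h.1 (le_antisymm (hcon w hw) h.2.1)
      exact disjoint_left.1 hd hw (this ▸ hz)
    · have h1 : w.2 = 2 := h.2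
      linarith [(hA0 hw).2.2.2]
    · have h1 : w.1 = 2 := h.1
      linarith [(hA0 hw).2.1]

end Pool.Agent.MP_a3a891_gt.H97
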