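import Mathlib

/-! General continuum lemmas: Sierpinski on intervals, boundary bumping, two-point separation. -/

open Set Topology Filter Metric

namespace Pool.Agent.MP_a3a891_gt.H97

/-- Sierpinski theorem for locally connected, locally compact connected spaces
(proof taken from the SineCurve hand-in). -/
theorem sierpinski {Y : Type} [TopologicalSpace Y] [T2Space Y] [LocallyCompactSpace Y]
    [LocallyConnectedSpace Y] [ConnectedSpace Y] {I : Type} [Countable I] (F : I → Set Y)
    (hd : Pairwise (fun i j => Disjoint (F i) (F j))) (hc : ∀ i, IsClosed (F i))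
    (hcov : ∀ y, ∃ i, y ∈ F i) : ∃ i, F i = univ := by
  classical
  set B : Set Y := (⋃ i, interior (F i))ᶜ with hB
  have hBc : IsClosed B := (isOpen_iUnion fun i => isOpen_interior).isClosed_compl
  have key : ∀ z k, z ∈ F k → z ∉ B → z ∈ interior (F k) := by
    intro z k hz hzB
    simp only [hB, mem_compl_iff, not_not, mem_iUnion] at hzB
    obtain ⟨i, hi⟩ := hzB
    by_cases hik : i = k
    · exact hik ▸ hi
    · exact absurd hz (disjoint_left.mp (hd hik) (interior_subset hi))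
  by_cases hBe : B = ∅
  · obtain ⟨y⟩ : Nonempty Y := inferInstance
    obtain ⟨i, hi⟩ := hcov y
    refine ⟨i, IsClopen.eq_univ ⟨hc i, ?_⟩ ⟨y, hi⟩⟩
    rw [← subset_interior_iff_isOpen]
    intro z hz
    exact key z i hz (by simp [hBe])
  · exfalso
    have : Nonempty B := (nonempty_iff_ne_empty.mpr hBe).to_subtype
    have : LocallyCompactSpace B := hBc.locallyCompactSpace
    have hcl : ∀ i, IsClosed ((Subtype.val : B → Y) ⁻¹' F i) := fun i =>
      (hc i).preimage continuous_subtype_val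
    have hun : ⋃ i, (Subtype.val : B → Y) ⁻¹' F i = univ := by
      ext z
      simpa using hcov z
    obtain ⟨j, x, hx⟩ := nonempty_interior_of_iUnion_of_closed hcl hun
    rw [mem_interior_iff_mem_nhds, nhds_induced, mem_comap] at hx
    obtain ⟨W, hW, hWF⟩ := hx
    obtain ⟨U, hUW, hUo, hxU, hUc⟩ :=
      (locallyConnectedSpace_iff_subsets_isOpen_isConnected.mp inferInstance) (x : Y) W hW
    have hxF : (x : Y) ∈ F j := hWF (show x ∈ Subtype.val ⁻¹' W from hUW hxU)
    have hnot : ¬ U ⊆ F j := by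
      intro h
      apply x.2
      exact mem_iUnion.mpr ⟨j, interior_maximal h hUo hxU⟩
    obtain ⟨y, hyU, hyF⟩ := not_subset.mp hnot
    obtain ⟨k, hk⟩ := hcov y
    have hkj : k ≠ j := fun h => hyF (h ▸ hk)
    have hin : ∀ z ∈ U, z ∈ F k → z ∈ interior (F k) := by
      intro z hzU hz
      refine key z k hz fun hzB => ?_
      have : z ∈ F j := hWF (show (⟨z, hzB⟩ : B) ∈ Subtype.val ⁻¹' W from hUW hzU)
      exact disjoint_left.mp (hd hkj) hz this
    have hsub : U ⊆ interior (F k) := by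
      refine hUc.isPreconnected.subset_left_of_subset_union isOpen_interior (hc k).isOpen_compl
        ?_ ?_ ⟨y, hyU, hin y hyU hk⟩
      · exact disjoint_left.mpr fun z hz hz' => hz' (interior_subset hz)
      · intro z hz
        by_cases h : z ∈ F k
        · exact Or.inl (hin z hz h)
        · exact Or.inr h
    exact disjoint_left.mp (hd hkj) (interior_subset (hsub hxU)) hxF

/-- Sierpinski on an interval: an open interval covered by countably many disjoint closed sets
lies, with its end points, in one of them. -/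
theorem sier_Ioo {I : Type} [Countable I] (G : I → Set ℝ)
    (hd : Pairwise (fun i j => Disjoint (G i) (G j))) (hc : ∀ i, IsClosed (G i)) {a b : ℝ}
    (hab : a < b) (hcov : ∀ t ∈ Ioo a b, ∃ i, t ∈ G i) : ∃ i, Icc a b ⊆ G i := by
  have : ConnectedSpace (Ioo a b) := isConnected_iff_connectedSpace.mp (isConnected_Ioo hab)
  have : LocallyCompactSpace (Ioo a b) := isOpen_Ioo.locallyCompactSpace
  have : LocallyConnectedSpace (Ioo a b) := isOpen_Ioo.locallyConnectedSpace
  obtain ⟨i, hi⟩ := sierpinski (fun i => (Subtype.val : Ioo a b → ℝ) ⁻¹' G i)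
    (fun i j hij => (hd hij).preimage _) (fun i => (hc i).preimage continuous_subtype_val)
    (fun t => hcov t t.2)
  refine ⟨i, ?_⟩
  rw [← closure_Ioo hab.ne, (hc i).closure_subset_iff]
  intro t ht
  have : (⟨t, ht⟩ : Ioo a b) ∈ (Subtype.val : Ioo a b → ℝ) ⁻¹' G i := hi ▸ mem_univ _
  exact this

variable {X : Type} [MetricSpace X]

theorem isClosed_cc {S : Set X} (hS : IsClosed S) (x : X) :
    IsClosed (connectedComponentIn S x) := by
  by_cases hx : x ∈ S
  · rw [connectedComponentIn_eq_image hx]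
    exact hS.isClosedEmbedding_subtypeVal.isClosedMap _ isClosed_connectedComponent
  · rw [connectedComponentIn_eq_empty hx]; exact isClosed_empty

theorem isCompact_cc {S : Set X} (hS : IsCompact S) (x : X) :
    IsCompact (connectedComponentIn S x) :=
  hS.of_isClosed_subset (isClosed_cc hS.isClosed x) (connectedComponentIn_subset _ _)

/-- A preconnected set covered by two closed sets that it meets, meets their intersection. -/
theorem meet_closed {C A B : Set X} (hC : IsPreconnected C) (hA : IsClosed A) (hB : IsClosed B)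
    (hcov : C ⊆ A ∪ B) (ha : (C ∩ A).Nonempty) (hb : (C ∩ B).Nonempty) :
    (C ∩ (A ∩ B)).Nonempty :=
  isPreconnected_closed_iff.1 hC A B hA hB hcov ha hb

/-- Boundary bumping. -/
theorem bump {C Y Y' : Set X} (hC : IsPreconnected C) (hY : IsCompact Y) (hY' : IsClosed Y')
    (hcov : C ⊆ Y ∪ Y') {w : X} (hwC : w ∈ C) (hw : w ∈ Y) (hne : (C ∩ Y').Nonempty) :
    (connectedComponentIn Y w ∩ Y').Nonempty := by
  by_contra hcon
  rw [not_nonempty_iff_eq_empty] at hcon
  have : CompactSpace Y := isCompact_iff_compactSpace.mp hY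
  have h1 := connectedComponent_eq_iInter_isClopen (⟨w, hw⟩ : Y)
  have hT : IsCompact ((Subtype.val : Y → X) ⁻¹' Y') :=
    (hY'.preimage continuous_subtype_val).isCompact
  have h2 : ((Subtype.val : Y → X) ⁻¹' Y') ∩
      ⋂ s : {s : Set Y // IsClopen s ∧ (⟨w, hw⟩ : Y) ∈ s}, (s : Set Y) = ∅ := by
    rw [← h1, eq_empty_iff_forall_notMem]
    rintro z ⟨hz1, hz2⟩
    have : (z : X) ∈ connectedComponentIn Y w ∩ Y' := by
      refine ⟨?_, hz1⟩
      rw [connectedComponentIn_eq_image hw]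
      exact ⟨z, hz2, rfl⟩
    rw [hcon] at this
    exact this
  obtain ⟨t, ht⟩ := hT.elim_finite_subfamily_closed _ (fun s => s.2.1.isClosed) h2
  set U : Set Y := ⋂ s ∈ t, (s : Set Y) with hU
  have hUc : IsClopen U := isClopen_biInter_finset fun s _ => s.2.1
  have hwU : (⟨w, hw⟩ : Y) ∈ U := mem_iInter₂.2 fun s _ => s.2.2
  have hcl := hY.isClosed.isClosedEmbedding_subtypeVal.isClosedMap
  obtain ⟨z, -, ⟨u, hu, rfl⟩, hz⟩ := meet_closed hC (hcl U hUc.isClosed)
    ((hcl Uᶜ hUc.compl.isClosed).union hY') (fun z hz => by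
      rcases hcov hz with h | h
      · by_cases h' : (⟨z, h⟩ : Y) ∈ U
        · exact Or.inl ⟨_, h', rfl⟩
        · exact Or.inr (Or.inl ⟨_, h', rfl⟩)
      · exact Or.inr (Or.inr h)) ⟨w, hwC, _, hwU, rfl⟩
    (let ⟨z, hz, hz'⟩ := hne; ⟨z, hz, Or.inr hz'⟩)
  rcases hz with ⟨u', hu', he⟩ | hz
  · exact hu' (Subtype.ext he ▸ hu)
  · have : u ∈ ((Subtype.val : Y → X) ⁻¹' Y') ∩ U := ⟨hz, hu⟩
    rw [ht] at this
    exact this

/-- Local separating point of `C`, written in the ambient space. -/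
def LS (C : Set X) (p : X) : Prop :=
  ∃ V, IsOpen V ∧ p ∈ V ∧ ¬ IsPreconnected (connectedComponentIn (C ∩ V) p \ {p})

theorem small_point {A : Set X} (hA : IsCompact A) (hAc : IsPreconnected A) {x w : X} (hx : x ∈ A)
    (hw : w ∈ A) (hne : w ≠ x) {V : Set X} (hV : IsOpen V) (hxV : x ∈ V) :
    ∃ v ∈ connectedComponentIn (A ∩ V) x, v ≠ x := by
  obtain ⟨r, hr, hrV⟩ := Metric.nhds_basis_closedBall.mem_iff.1 (hV.mem_nhds hxV)
  have hd : 0 < dist w x := dist_pos.2 hne
  set e := min r (dist w x) with he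
  have e0 : 0 < e := lt_min hr hd
  obtain ⟨v, hv, hv'⟩ := bump (Y := A ∩ closedBall x e) (Y' := {p | e ≤ dist p x}) hAc
    (hA.inter_right isClosed_closedBall) (isClosed_le continuous_const (by fun_prop))
    (fun p hp => by
      rcases le_total (dist p x) e with h | h
      · exact Or.inl ⟨hp, h⟩
      · exact Or.inr h) hx ⟨hx, mem_closedBall_self e0.le⟩ ⟨w, hw, show e ≤ dist w x from min_le_right _ _⟩
  refine ⟨v, connectedComponentIn_mono _ (inter_subset_inter_right _
    ((closedBall_subset_closedBall (min_le_left _ _)).trans hrV)) hv, fun h => ?_⟩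
  have : e ≤ dist v x := hv'
  rw [h, dist_self] at this
  linarith

theorem ls_of_two {C Y Y' : Set X} (hY : IsCompact Y) (hY' : IsCompact Y') (hcov : C = Y ∪ Y')
    {x x' : X} (hint : Y ∩ Y' ⊆ {x, x'}) (hx : x ∈ Y) (hx' : x ∈ Y')
    (h1 : ∃ w ∈ connectedComponentIn Y x, w ≠ x) (h2 : ∃ w ∈ connectedComponentIn Y' x, w ≠ x) :
    LS C x := by
  have hTc : IsClosed ({x'} \ {x} : Set X) := (Set.toFinite _).isClosed
  have hxV : x ∈ ({x'} \ {x} : Set X)ᶜ := fun h => h.2 rfl
  refine ⟨({x'} \ {x})ᶜ, hTc.isOpen_compl, hxV, fun hK => ?_⟩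
  have aux : ∀ Z : Set X, IsCompact Z → Z ⊆ C → x ∈ Z →
      (∃ w ∈ connectedComponentIn Z x, w ≠ x) →
      ((connectedComponentIn (C ∩ ({x'} \ {x})ᶜ) x \ {x}) ∩ Z).Nonempty := by
    rintro Z hZ hZC hxZ ⟨w, hw, hwx⟩
    obtain ⟨v, hv, hvx⟩ := small_point (isCompact_cc hZ x) isPreconnected_connectedComponentIn
      (mem_connectedComponentIn hxZ) hw hwx hTc.isOpen_compl hxV
    have hs := connectedComponentIn_subset Z x
    exact ⟨v, ⟨connectedComponentIn_mono _ (inter_subset_inter_left _ (hs.trans hZC)) hv, hvx⟩,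
      hs (connectedComponentIn_subset _ _ hv).1⟩
  obtain ⟨z, ⟨hz, hzx⟩, hz'⟩ := meet_closed hK hY.isClosed hY'.isClosed
    (fun z hz => hcov ▸ (connectedComponentIn_subset _ _ hz.1).1)
    (aux Y hY (hcov ▸ subset_union_left) hx h1) (aux Y' hY' (hcov ▸ subset_union_right) hx' h2)
  rcases hint hz' with h | h
  · exact hzx h
  · exact (connectedComponentIn_subset _ _ hz).2 ⟨h, hzx⟩

/-- If two points separate a continuum, one of them is a local separating point. -/
theorem two_point {C Y Y' : Set X} (hC : IsPreconnected C) (hY : IsCompact Y)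
    (hY' : IsCompact Y') (hcov : C = Y ∪ Y') {x x' : X} (hint : Y ∩ Y' ⊆ {x, x'})
    {w w' : X} (hw : w ∈ Y) (hw' : w' ∈ Y') (hwn : w ∉ ({x, x'} : Set X))
    (hwn' : w' ∉ ({x, x'} : Set X)) : (x ∈ C ∧ LS C x) ∨ (x' ∈ C ∧ LS C x') := by
  have hYC : Y ⊆ C := hcov ▸ subset_union_left
  have hYC' : Y' ⊆ C := hcov ▸ subset_union_right
  have b1 : ∀ u ∈ Y, ∃ p ∈ Y ∩ Y', u ∈ connectedComponentIn Y p := by
    intro u hu
    obtain ⟨p, hp, hp'⟩ := bump hC hY hY'.isClosed hcov.subset (hYC hu) hu ⟨w', hYC' hw', hw'⟩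
    refine ⟨p, ⟨connectedComponentIn_subset _ _ hp, hp'⟩, ?_⟩
    rw [← connectedComponentIn_eq hp]
    exact mem_connectedComponentIn hu
  have b2 : ∀ u ∈ Y', ∃ p ∈ Y ∩ Y', u ∈ connectedComponentIn Y' p := by
    intro u hu
    obtain ⟨p, hp, hp'⟩ := bump hC hY' hY.isClosed (by rw [union_comm]; exact hcov.subset)
      (hYC' hu) hu ⟨w, hYC hw, hw⟩
    refine ⟨p, ⟨hp', connectedComponentIn_subset _ _ hp⟩, ?_⟩
    rw [← connectedComponentIn_eq hp]
    exact mem_connectedComponentIn hu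
  by_contra hcon
  have key : ∀ p ∈ Y ∩ Y', (∃ u ∈ connectedComponentIn Y p, u ≠ p) →
      (∃ u ∈ connectedComponentIn Y' p, u ≠ p) → False := by
    intro p hp h1 h2
    apply hcon
    rcases hint hp with rfl | rfl
    · exact Or.inl ⟨hYC hp.1, ls_of_two hY hY' hcov hint hp.1 hp.2 h1 h2⟩
    · exact Or.inr ⟨hYC hp.1, ls_of_two hY hY' hcov (by rwa [pair_comm]) hp.1 hp.2 h1 h2⟩
  obtain ⟨p, hp, hwp⟩ := b1 w hw
  obtain ⟨p', hp', hwp'⟩ := b2 w' hw'
  have n1 : ∃ u ∈ connectedComponentIn Y p, u ≠ p := ⟨w, hwp, fun h => hwn (h ▸ hint hp)⟩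
  have n2 : ∃ u ∈ connectedComponentIn Y' p', u ≠ p' := ⟨w', hwp', fun h => hwn' (h ▸ hint hp')⟩
  have hpp : p ≠ p' := fun h => key p hp n1 (h ▸ n2)
  have hall : ∀ q ∈ Y ∩ Y', q = p ∨ q = p' := by
    intro q hq
    rcases hint hq with h | h <;> rcases hint hp with h1 | h1 <;> rcases hint hp' with h2 | h2 <;>
      simp_all
  have t1 : ∀ u ∈ connectedComponentIn Y' p, u = p := fun u hu => by
    by_contra h; exact key p hp n1 ⟨u, hu, h⟩
  have t2 : ∀ u ∈ connectedComponentIn Y p', u = p' := fun u hu => by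
    by_contra h; exact key p' hp' ⟨u, hu, h⟩ n2
  obtain ⟨z, -, hz1, hz2⟩ := meet_closed hC (isClosed_cc hY.isClosed p)
    (isClosed_cc hY'.isClosed p') (fun u hu => by
      rw [hcov] at hu
      rcases hu with hu | hu
      · obtain ⟨q, hq, huq⟩ := b1 u hu
        rcases hall q hq with rfl | rfl
        · exact Or.inl huq
        · exact Or.inr (by rw [t2 u huq]; exact mem_connectedComponentIn hq.2)
      · obtain ⟨q, hq, huq⟩ := b2 u hu
        rcases hall q hq with rfl | rfl
        · exact Or.inl (by rw [t1 u huq]; exact mem_connectedComponentIn hq.1)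
        · exact Or.inr huq)
    ⟨p, hYC hp.1, mem_connectedComponentIn hp.1⟩ ⟨p', hYC hp'.1, mem_connectedComponentIn hp'.2⟩
  rcases hall z ⟨connectedComponentIn_subset _ _ hz1, connectedComponentIn_subset _ _ hz2⟩ with
    rfl | rfl
  · apply hpp
    refine (t1 p' ?_).symm
    rw [← connectedComponentIn_eq hz2]
    exact mem_connectedComponentIn hp'.2
  · apply hpp
    refine t2 p ?_
    rw [← connectedComponentIn_eq hz1]
    exact mem_connectedComponentIn hp.1

/-- A point on a free segment is a local separating point. -/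
theorem ls_of_line {C V : Set X} (hV : IsOpen V) {π : X → ℝ} (hπ : Continuous π) {γ : ℝ → X}
    (hγ : Continuous γ) (hπγ : ∀ t, π (γ t) = t) {a b t : ℝ} (ht : t ∈ Ioo a b)
    (hseg : ∀ s ∈ Ioo a b, γ s ∈ C ∩ V)
    (hK : ∀ q ∈ connectedComponentIn (C ∩ V) (γ t), q = γ (π q)) : LS C (γ t) := by
  refine ⟨V, hV, (hseg t ht).2, fun h => ?_⟩
  have hsub : γ '' Ioo a b ⊆ connectedComponentIn (C ∩ V) (γ t) :=
    (isPreconnected_Ioo.image γ hγ.continuousOn).subset_connectedComponentIn ⟨t, ht, rfl⟩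
      (by rintro _ ⟨s, hs, rfl⟩; exact hseg s hs)
  have hm : ∀ s ∈ Ioo a b, s ≠ t → γ s ∈ connectedComponentIn (C ∩ V) (γ t) \ {γ t} := by
    intro s hs hst
    refine ⟨hsub ⟨s, hs, rfl⟩, fun he => hst ?_⟩
    rw [← hπγ s, show γ s = γ t from he, hπγ]
  obtain ⟨q, hq, hq'⟩ := h.intermediate_value
    (hm ((a + t) / 2) ⟨by linarith [ht.1], by linarith [ht.1, ht.2]⟩ (by linarith [ht.1]))
    (hm ((t + b) / 2) ⟨by linarith [ht.1, ht.2], by linarith [ht.2]⟩ (by linarith [ht.2]))
    hπ.continuousOn (show t ∈ Icc _ _ by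
      rw [hπγ, hπγ]; exact ⟨by linarith [ht.1], by linarith [ht.2]⟩)
  apply hq.2
  rw [mem_singleton_iff, hK q hq.1, hq']

end Pool.Agent.MP_a3a891_gt.H97
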