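import Pool.Agent.MP_a3a891_gt.H97.Star

/-! The ladder continuum. -/

open Set Topology Filter Metric

namespace Pool.Agent.MP_a3a891_gt.H97

/-- Level `n` of the ladder: the horizontal segment at height `1/(n+1)` and the vertical segments
of that height at the points `j/(n+1)`. -/
def level (n : ℕ) : Set (ℝ × ℝ) :=
  {z | z.2 = 1 / ((n : ℝ) + 1) ∨
    (z.2 ≤ 1 / ((n : ℝ) + 1) ∧ ∃ j ∈ Finset.range (n + 2), z.1 = (j : ℝ) / ((n : ℝ) + 1))}

/-- The ladder. -/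
def ladder : Set (ℝ × ℝ) := box ∩ {z | z.2 = 0 ∨ ∃ n, z ∈ level n}

theorem isClosed_level (n : ℕ) : IsClosed (level n) := by
  refine (isClosed_eq continuous_snd continuous_const).union
    ((isClosed_le continuous_snd continuous_const).inter ?_)
  have : IsClosed (⋃ j ∈ Finset.range (n + 2), {z : ℝ × ℝ | z.1 = (j : ℝ) / ((n : ℝ) + 1)}) :=
    isClosed_biUnion_finset fun j _ => isClosed_eq continuous_fst continuous_const
  convert this using 1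
  ext z
  simp [mem_setOf_eq]
  rfl

theorem level_le {n : ℕ} {z : ℝ × ℝ} (h : z ∈ level n) : z.2 ≤ 1 / ((n : ℝ) + 1) :=
  h.elim le_of_eq And.left

theorem low {N n : ℕ} {z : ℝ × ℝ} (h : z ∈ level n) (hz : 1 / ((N : ℝ) + 1) < z.2) : n < N := by
  have h1 := hz.trans_le (level_le h)
  rw [one_div_lt_one_div (by positivity) (by positivity)] at h1
  exact_mod_cast (by linarith : (n : ℝ) < N)

theorem isCompact_box : IsCompact box := by
  have : box = Icc (0 : ℝ) 1 ×ˢ Icc (0 : ℝ) 1 := by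
    ext z; simp only [box, mem_setOf_eq, mem_prod, mem_Icc, and_assoc]
  rw [this]
  exact isCompact_Icc.prod isCompact_Icc

theorem isCompact_ladder : IsCompact ladder := by
  refine isCompact_box.of_isClosed_subset (isClosed_of_closure_subset fun z hz => ?_)
    inter_subset_left
  have hb : z ∈ box := isCompact_box.isClosed.closure_subset_iff.2 inter_subset_left hz
  refine ⟨hb, ?_⟩
  rcases hb.2.2.1.eq_or_lt with h | h
  · exact Or.inl h.symm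
  obtain ⟨N, hN⟩ := exists_nat_one_div_lt h
  have hc : IsClosed ({w : ℝ × ℝ | w.2 ≤ 1 / ((N : ℝ) + 1)} ∪ ⋃ n ∈ Finset.range N, level n) :=
    (isClosed_le continuous_snd continuous_const).union
      (isClosed_biUnion_finset fun n _ => isClosed_level n)
  have := hc.closure_subset_iff.2 (show ladder ⊆ _ from fun w hw => by
    by_cases hl : w.2 ≤ 1 / ((N : ℝ) + 1)
    · exact Or.inl hl
    · push Not at hl
      rcases hw.2 with h0 | ⟨n, hn⟩
      · rw [h0] at hl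
        exact absurd hl (not_lt.2 (by positivity))
      · exact Or.inr (mem_biUnion (Finset.mem_coe.2 (Finset.mem_range.2 (low hn hl))) hn)) hz
  rcases this with h1 | h1
  · exact absurd hN (not_lt.2 h1)
  · obtain ⟨n, -, hn⟩ := mem_iUnion₂.1 h1
    exact Or.inr ⟨n, hn⟩

theorem gap_finite {T : Set ℝ} (hT : T.Finite) (x : ℝ) :
    ∃ r > 0, ∀ t ∈ T, dist t x < r → t = x := by
  have hc : IsClosed (T \ {x}) := (hT.subset diff_subset).isClosed
  obtain ⟨r, hr, h⟩ := Metric.isOpen_iff.1 hc.isOpen_compl x (fun h => h.2 rfl)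
  refine ⟨r, hr, fun t ht hd => ?_⟩
  by_contra hne
  exact h (mem_ball.2 hd) ⟨ht, hne⟩

theorem ladder_cross {z : ℝ × ℝ} (h0 : 0 < z.2) :
    ∃ r > 0, ∀ w ∈ ladder ∩ ball z r, w.1 = z.1 ∨ w.2 = z.2 := by
  obtain ⟨N, hN⟩ := exists_nat_one_div_lt h0
  obtain ⟨r1, p1, h1⟩ := gap_finite (((Set.finite_Iio N).prod (Set.finite_Iio (N + 2))).image
    fun p : ℕ × ℕ => (p.2 : ℝ) / ((p.1 : ℝ) + 1)) z.1
  obtain ⟨r2, p2, h2⟩ := gap_finite ((Set.finite_Iio N).image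
    fun n : ℕ => 1 / ((n : ℝ) + 1)) z.2
  refine ⟨min (z.2 - 1 / ((N : ℝ) + 1)) (min r1 r2), lt_min (by linarith) (lt_min p1 p2),
    fun w hw => ?_⟩
  have hd := hw.2
  rw [mem_ball, Prod.dist_eq, max_lt_iff, lt_min_iff, lt_min_iff, lt_min_iff, lt_min_iff] at hd
  have hl : 1 / ((N : ℝ) + 1) < w.2 := by
    have := hd.2.1
    rw [Real.dist_eq, abs_lt] at this
    linarith [this.1]
  rcases hw.1.2 with h | ⟨n, hn⟩
  · rw [h] at hl
    exact absurd hl (not_lt.2 (by positivity))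
  have hnN := low hn hl
  rcases hn with h | ⟨-, j, hj, h⟩
  · exact Or.inr (h2 _ ⟨n, hnN, h.symm⟩ hd.2.2.2)
  · refine Or.inl (h1 _ ⟨(n, j), ⟨hnN, ?_⟩, h.symm⟩ hd.1.2.1)
    have := Finset.mem_range.1 hj
    show j < N + 2
    omega

theorem vert {n j : ℕ} (hj : j < n + 2) {y : ℝ} (h0 : 0 ≤ y) (h1 : y ≤ 1 / ((n : ℝ) + 1)) :
    (((j : ℝ) / ((n : ℝ) + 1), y) : ℝ × ℝ) ∈ ladder := by
  have hn : (0 : ℝ) < n + 1 := by positivity
  refine ⟨⟨by positivity, ?_, h0, h1.trans ?_⟩,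
    Or.inr ⟨n, Or.inr ⟨h1, j, Finset.mem_range.2 hj, rfl⟩⟩⟩
  · show (j : ℝ) / ((n : ℝ) + 1) ≤ 1
    rw [div_le_one hn]
    exact_mod_cast (by omega : j ≤ n + 1)
  · rw [div_le_one hn]
    linarith [(Nat.cast_nonneg n : (0 : ℝ) ≤ n)]

theorem hseg_pre (y a b : ℝ) : IsPreconnected ((fun x => (x, y)) '' uIcc a b : Set (ℝ × ℝ)) :=
  isPreconnected_uIcc.image _ (by fun_prop)

theorem vseg_pre (x a b : ℝ) : IsPreconnected ((fun y => (x, y)) '' uIcc a b : Set (ℝ × ℝ)) :=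
  isPreconnected_uIcc.image _ (by fun_prop)

/-- Every point of the ladder is joined to the bottom side by a small connected set. -/
theorem down {w : ℝ × ℝ} (hw : w ∈ ladder) : ∃ K ⊆ ladder, IsPreconnected K ∧ w ∈ K ∧
    (∃ t, ((t, 0) : ℝ × ℝ) ∈ K) ∧ ∀ u ∈ K, |u.1 - w.1| ≤ w.2 ∧ u.2 ≤ w.2 := by
  have hb := hw.1
  have vcase : ∀ n j : ℕ, j < n + 2 → ∀ y, 0 ≤ y → y ≤ 1 / ((n : ℝ) + 1) →
      (fun s => ((j : ℝ) / ((n : ℝ) + 1), s)) '' uIcc 0 y ⊆ ladder := by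
    rintro n j hj y h0 h1 _ ⟨s, hs, rfl⟩
    rw [uIcc_of_le h0] at hs
    exact vert hj hs.1 (hs.2.trans h1)
  rcases hw.2 with h | ⟨n, h | ⟨h, j, hj, hj'⟩⟩
  · refine ⟨{w}, singleton_subset_iff.2 hw, isPreconnected_singleton, rfl,
      ⟨w.1, Prod.ext rfl h.symm⟩, ?_⟩
    rintro _ rfl
    simp [h]
  · have hn : (0 : ℝ) < n + 1 := by positivity
    set j := ⌊w.1 * ((n : ℝ) + 1)⌋₊ with hj
    have f1 : (j : ℝ) ≤ w.1 * ((n : ℝ) + 1) := Nat.floor_le (mul_nonneg hb.1 hn.le)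
    have f2 : w.1 * ((n : ℝ) + 1) < j + 1 := Nat.lt_floor_add_one _
    have g1 : (j : ℝ) / ((n : ℝ) + 1) ≤ w.1 := by rwa [div_le_iff₀ hn]
    have g2 : w.1 - (j : ℝ) / ((n : ℝ) + 1) ≤ w.2 := by
      rw [h, sub_le_iff_le_add, ← add_div, le_div_iff₀ hn]
      linarith
    have g0 : (0 : ℝ) ≤ (j : ℝ) / ((n : ℝ) + 1) := by positivity
    have hjn : j < n + 2 := by
      have : (j : ℝ) < n + 2 := by nlinarith [hb.2.1]
      exact_mod_cast this
    refine ⟨(fun x => (x, w.2)) '' uIcc ((j : ℝ) / ((n : ℝ) + 1)) w.1 ∪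
      (fun s => ((j : ℝ) / ((n : ℝ) + 1), s)) '' uIcc 0 w.2,
      union_subset ?_ (vcase n j hjn _ hb.2.2.1 h.le),
      IsPreconnected.union ((j : ℝ) / ((n : ℝ) + 1), w.2) ⟨_, left_mem_uIcc, rfl⟩
        ⟨_, right_mem_uIcc, rfl⟩ (hseg_pre _ _ _) (vseg_pre _ _ _),
      Or.inl ⟨_, right_mem_uIcc, rfl⟩, ⟨_, Or.inr ⟨_, left_mem_uIcc, rfl⟩⟩, ?_⟩
    · rintro _ ⟨s, hs, rfl⟩
      rw [uIcc_of_le g1] at hs
      exact ⟨⟨g0.trans hs.1, hs.2.trans hb.2.1, hb.2.2.1, hb.2.2.2⟩, Or.inr ⟨n, Or.inl h⟩⟩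
    · rintro _ (⟨s, hs, rfl⟩ | ⟨s, hs, rfl⟩)
      · rw [uIcc_of_le g1] at hs
        exact ⟨abs_le.2 ⟨by linarith [hs.1], by linarith [hs.2, hb.2.2.1]⟩, le_rfl⟩
      · rw [uIcc_of_le hb.2.2.1] at hs
        exact ⟨abs_le.2 ⟨by linarith, by linarith [hb.2.2.1]⟩, hs.2⟩
  · refine ⟨(fun s => ((j : ℝ) / ((n : ℝ) + 1), s)) '' uIcc 0 w.2,
      vcase n j (Finset.mem_range.1 hj) _ hb.2.2.1 h, vseg_pre _ _ _,
      ⟨_, right_mem_uIcc, Prod.ext hj'.symm rfl⟩, ⟨_, _, left_mem_uIcc, rfl⟩, ?_⟩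
    rintro _ ⟨s, hs, rfl⟩
    rw [uIcc_of_le hb.2.2.1] at hs
    exact ⟨by simp [hj', hb.2.2.1], hs.2⟩

theorem join {x : ℝ} (hx : ((x, 0) : ℝ × ℝ) ∈ ladder) {w : ℝ × ℝ} (hw : w ∈ ladder) :
    ∃ K ⊆ ladder, IsPreconnected K ∧ w ∈ K ∧ ((x, 0) : ℝ × ℝ) ∈ K ∧
      ∀ u ∈ K, dist u (x, 0) ≤ 2 * dist w (x, 0) := by
  obtain ⟨K, hK, hKc, hwK, ⟨t, ht⟩, hb⟩ := down hw
  have d1 : |w.1 - x| ≤ dist w (x, 0) := by
    rw [Prod.dist_eq, Real.dist_eq]; exact le_max_left _ _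
  have d2 : w.2 ≤ dist w (x, 0) := by
    rw [Prod.dist_eq, Real.dist_eq, Real.dist_eq, sub_zero]
    exact (le_abs_self _).trans (le_max_right _ _)
  have key : ∀ u ∈ K, dist u (x, 0) ≤ 2 * dist w (x, 0) := by
    intro u hu
    obtain ⟨h1, h2⟩ := hb u hu
    rw [Prod.dist_eq (x := u), Real.dist_eq, Real.dist_eq, sub_zero, max_le_iff,
      abs_of_nonneg (hK hu).1.2.2.1]
    refine ⟨?_, by linarith [dist_nonneg (x := w) (y := (x, 0))]⟩
    have := abs_sub_le u.1 w.1 x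
    linarith
  refine ⟨K ∪ (fun s => (s, 0)) '' uIcc t x, union_subset hK ?_,
    IsPreconnected.union (t, 0) ht ⟨_, left_mem_uIcc, rfl⟩ hKc (hseg_pre _ _ _), Or.inl hwK,
    Or.inr ⟨_, right_mem_uIcc, rfl⟩, ?_⟩
  · rintro _ ⟨s, hs, rfl⟩
    have h1 := (hK ht).1
    have h2 := hx.1
    have h3 : s ∈ Icc (0 : ℝ) 1 := ordConnected_Icc.uIcc_subset ⟨h1.1, h1.2.1⟩ ⟨h2.1, h2.2.1⟩ hs
    exact ⟨⟨h3.1, h3.2, le_rfl, zero_le_one⟩, Or.inl rfl⟩
  · rintro u (hu | ⟨s, hs, rfl⟩)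
    · exact key u hu
    · refine le_trans ?_ (key _ ht)
      simp only [Prod.dist_eq, dist_self]
      exact max_le_max (Real.dist_right_le_of_mem_uIcc hs) le_rfl

theorem origin_mem : ((0, 0) : ℝ × ℝ) ∈ ladder :=
  ⟨⟨le_rfl, zero_le_one, le_rfl, zero_le_one⟩, Or.inl rfl⟩

theorem corner_mem : ((1, 0) : ℝ × ℝ) ∈ ladder :=
  ⟨⟨zero_le_one, le_rfl, le_rfl, zero_le_one⟩, Or.inl rfl⟩

theorem isConnected_ladder : IsConnected ladder := by
  refine ⟨⟨_, origin_mem⟩, isPreconnected_of_forall (0, 0) fun w hw => ?_⟩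
  obtain ⟨K, h1, h2, h3, h4, -⟩ := join origin_mem hw
  exact ⟨K, h1, h4, h3, h2⟩

theorem lc_of {Y : Type} [MetricSpace Y] {X : Set Y}
    (h : ∀ x ∈ X, ∀ ε > 0, ∃ W ∈ 𝓝 x, ∃ K ⊆ X ∩ ball x ε, IsPreconnected K ∧ X ∩ W ⊆ K) :
    LocallyConnectedSpace X := by
  refine locallyConnectedSpace_iff_connected_subsets.2 fun x U hU => ?_
  obtain ⟨ε, hε, hεU⟩ := Metric.mem_nhds_iff.1 hU
  obtain ⟨W, hW, K, hK, hKc, hWK⟩ := h x x.2 ε hε
  refine ⟨Subtype.val ⁻¹' K, mem_of_superset (continuous_subtype_val.continuousAt hW)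
    fun y hy => hWK ⟨y.2, hy⟩, ?_, fun y hy => hεU (hK hy).2⟩
  rw [← IsInducing.subtypeVal.isPreconnected_image, Subtype.image_preimage_coe,
    inter_eq_right.2 (hK.trans inter_subset_left)]
  exact hKc

theorem lc_ladder : LocallyConnectedSpace ladder := by
  refine lc_of fun z hz ε hε => ?_
  rcases hz.1.2.2.1.eq_or_lt with h | h
  · obtain ⟨x, y⟩ := z
    obtain rfl : 0 = y := h
    refine ⟨ball (x, 0) (ε / 2), ball_mem_nhds _ (half_pos hε),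
      connectedComponentIn (ladder ∩ ball (x, 0) ε) (x, 0), connectedComponentIn_subset _ _,
      isPreconnected_connectedComponentIn, fun w hw => ?_⟩
    obtain ⟨K, h1, h2, h3, h4, h5⟩ := join hz hw.1
    have := mem_ball.1 hw.2
    exact h2.subset_connectedComponentIn (F := ladder ∩ ball (x, 0) ε) h4
      (fun u hu => ⟨h1 hu, mem_ball.2 (by linarith [h5 u hu])⟩) h3
  · obtain ⟨r, hr, hx⟩ := ladder_cross h
    obtain ⟨W, h1, h2, h3, h4, -⟩ := star (F := fun _ : Unit => univ) isCompact_ladder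
      isConnected_ladder.2 ⟨_, origin_mem, _, corner_mem, by simp⟩ (fun _ => isClosed_univ)
      (Subsingleton.pairwise) (fun _ _ _ => ⟨(), trivial⟩) hz (lt_min hr hε)
      fun w hw => hx w ⟨hw.1, ball_subset_ball (min_le_left _ _) hw.2⟩
    exact ⟨W, h1.mem_nhds h2, _, inter_subset_inter_right _
      (h3.trans (ball_subset_ball (min_le_right _ _))), h4, subset_rfl⟩

/-- The deleted comb inside the ladder, without its special point. -/
def comb : Set (ℝ × ℝ) :=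
  {z | (z.1 = 0 ∧ 0 < z.2 ∧ z.2 ≤ 1) ∨ (0 ≤ z.1 ∧ z.1 ≤ 1 ∧ ∃ n : ℕ, z.2 = 1 / ((n : ℝ) + 1))}

theorem inv_le (n : ℕ) : 1 / ((n : ℝ) + 1) ≤ 1 := by
  rw [div_le_one (by positivity)]
  linarith [(Nat.cast_nonneg n : (0 : ℝ) ≤ n)]

theorem comb_sub : insert (1, 0) comb ⊆ ladder := by
  rintro z (rfl | ⟨h1, h2, h3⟩ | ⟨h1, h2, n, h3⟩)
  · exact corner_mem
  · have := vert (n := 0) (j := 0) (by norm_num) h2.le (by simpa using h3)
    convert this
    simp [h1]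
  · exact ⟨⟨h1, h2, by rw [h3]; positivity, h3 ▸ inv_le n⟩, Or.inr ⟨n, Or.inl h3⟩⟩

theorem comb_pre : IsPreconnected comb := by
  refine isPreconnected_of_forall (0, 1) fun z hz => ?_
  have v : ∀ y, 0 < y → y ≤ 1 → (fun s => ((0 : ℝ), s)) '' uIcc y 1 ⊆ comb := by
    rintro y h0 h1 _ ⟨s, hs, rfl⟩
    rw [uIcc_of_le h1] at hs
    exact Or.inl ⟨rfl, h0.trans_le hs.1, hs.2⟩
  rcases hz with ⟨h1, h2, h3⟩ | ⟨h1, h2, n, h3⟩
  · exact ⟨_, v _ h2 h3, ⟨_, right_mem_uIcc, rfl⟩, ⟨_, left_mem_uIcc, Prod.ext h1.symm rfl⟩,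
      vseg_pre _ _ _⟩
  · refine ⟨(fun s => ((0 : ℝ), s)) '' uIcc z.2 1 ∪ (fun x => (x, z.2)) '' uIcc 0 z.1,
      union_subset (v _ (by rw [h3]; positivity) (h3 ▸ inv_le n)) ?_,
      Or.inl ⟨_, right_mem_uIcc, rfl⟩, Or.inr ⟨_, right_mem_uIcc, rfl⟩,
      IsPreconnected.union (0, z.2) ⟨_, left_mem_uIcc, rfl⟩ ⟨_, left_mem_uIcc, rfl⟩
        (vseg_pre _ _ _) (hseg_pre _ _ _)⟩
    rintro _ ⟨s, hs, rfl⟩
    rw [uIcc_of_le h1] at hs
    exact Or.inr ⟨hs.1, hs.2.trans h2, n, h3⟩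

theorem comb_conn : IsConnected (insert ((1, 0) : ℝ × ℝ) comb) := by
  refine ⟨insert_nonempty _ _, comb_pre.subset_closure (subset_insert _ _)
    (insert_subset ?_ subset_closure)⟩
  refine mem_closure_of_tendsto (b := atTop) (f := fun n : ℕ => ((1 : ℝ), 1 / ((n : ℝ) + 1)))
    (tendsto_const_nhds.prodMk_nhds tendsto_one_div_add_atTop_nhds_zero_nat)
    (Eventually.of_forall fun n => Or.inr ⟨zero_le_one, le_rfl, n, rfl⟩)

theorem comb_nopath (f : unitInterval → ℝ × ℝ) (hf : Continuous f) (h0 : f 0 = (1, 0))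
    (h1 : f 1 = (0, 1)) (hr : range f ⊆ insert (1, 0) comb) : False := by
  have hpos : ∀ z ∈ comb, 0 < z.2 := by
    rintro z (h | ⟨-, -, n, h⟩)
    · exact h.2.1
    · rw [h]; positivity
  have hcl : IsClopen {t | f t = (1, 0)} := by
    refine ⟨isClosed_eq hf continuous_const, Metric.isOpen_iff.2 fun t ht => ?_⟩
    have ho : IsOpen {s | 0 < (f s).1} := isOpen_lt continuous_const hf.fst
    obtain ⟨r, hr0, hb⟩ := Metric.isOpen_iff.1 ho t (by rw [mem_setOf_eq, ht]; exact one_pos)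
    refine ⟨r, hr0, fun s hs => ?_⟩
    have hpre : IsPreconnected (uIcc t s) := isPreconnected_uIcc
    have hsub : uIcc t s ⊆ ball t r := fun u hu =>
      lt_of_le_of_lt (Real.dist_left_le_of_mem_uIcc (x := t) (y := u) (z := s) hu |>.trans_eq'
        (dist_comm _ _)) (by rw [dist_comm]; exact hs)
    have hcount : (insert 0 (range fun n : ℕ => 1 / ((n : ℝ) + 1))).Countable :=
      (countable_range _).insert _
    have := hcount.isTotallyDisconnected ((fun u => (f u).2) '' uIcc t s) (by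
      rintro _ ⟨u, hu, rfl⟩
      rcases hr ⟨u, rfl⟩ with h | h | ⟨-, -, n, h⟩
      · exact Or.inl (by simp [h])
      · exact absurd h.1 (ne_of_gt (hb (hsub hu)))
      · exact Or.inr ⟨n, h.symm⟩) (hpre.image _ hf.snd.continuousOn)
    have e : (f s).2 = (f t).2 := this ⟨s, right_mem_uIcc, rfl⟩ ⟨t, left_mem_uIcc, rfl⟩
    rw [show f t = (1, 0) from ht] at e
    rcases hr ⟨s, rfl⟩ with h | h
    · exact h
    · exact absurd e (hpos _ h).ne'
  have : (1 : unitInterval) ∈ {t | f t = (1, 0)} := by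
    rw [hcl.eq_univ ⟨0, h0⟩]; trivial
  rw [mem_setOf_eq, h1] at this
  simp at this

end Pool.Agent.MP_a3a891_gt.H97
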