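import Pool.Agent.MP_a3a891_gt.H97.Comp

/-! The planar theorem: the context `Ctx` is contradictory for a nondegenerate continuum. -/

open Set Topology Filter Metric

namespace Pool.Agent.MP_a3a891_gt.H97

namespace Ctx

variable {C : Set (ℝ × ℝ)} {I : Type} {F : I → Set (ℝ × ℝ)} (H : Ctx C F) [Countable I]
include H

theorem hugR {G : Set (Set (ℝ × ℝ))} (hG : ∀ S ∈ G, Comp F S) {q : ℝ × ℝ}
    (hq : q ∈ closure (⋃₀ G)) (hqn : q ∉ ⋃₀ G) {x : ℝ} (hx : x < q.1)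
    (h1 : ∀ S ∈ G, ∃ t ≤ x, (t, 0) ∈ S) (h2 : ∀ S ∈ G, ∀ t ∈ Ioo x q.1, (t, 0) ∉ S) : Cov F x := by
  obtain ⟨-, -, h⟩ := H.low_near hG hq hqn
  refine (H.hug (t₂ := (x + q.1) / 2) (by linarith) fun η hη => ?_).1
  obtain ⟨S, hS, hlow, z, hz, hd⟩ := h η hη ((q.1 - x) / 2) (by linarith)
  obtain ⟨t, ht, htS⟩ := h1 S hS
  exact ⟨S, hG S hS, hlow, fun s hs => h2 S hS s ⟨hs.1, by linarith [hs.2]⟩, ⟨_, htS, ht⟩,
    z, hz, by linarith [(abs_lt.1 hd).1]⟩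

theorem hugL {G : Set (Set (ℝ × ℝ))} (hG : ∀ S ∈ G, Comp F S) {q : ℝ × ℝ}
    (hq : q ∈ closure (⋃₀ G)) (hqn : q ∉ ⋃₀ G) {x : ℝ} (hx : q.1 < x)
    (h1 : ∀ S ∈ G, ∃ t, x ≤ t ∧ (t, 0) ∈ S) (h2 : ∀ S ∈ G, ∀ t ∈ Ioo q.1 x, (t, 0) ∉ S) :
    Cov F x := by
  obtain ⟨-, -, h⟩ := H.low_near hG hq hqn
  refine (H.hug (t₁ := (x + q.1) / 2) (by linarith) fun η hη => ?_).2
  obtain ⟨S, hS, hlow, z, hz, hd⟩ := h η hη ((x - q.1) / 2) (by linarith)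
  obtain ⟨t, ht, htS⟩ := h1 S hS
  exact ⟨S, hG S hS, hlow, fun s hs => h2 S hS s ⟨by linarith [hs.1], hs.2⟩,
    ⟨z, hz, by linarith [(abs_lt.1 hd).2]⟩, _, htS, ht⟩

/-- Two uncovered points of the bottom line cannot cut off a part of `C`. -/
theorem sep {x x' : ℝ} (hx : ¬ Cov F x) (hx' : ¬ Cov F x')
    (hin : ∀ S, Comp F S → ∀ e ∈ Ioo x x', (e, 0) ∈ S → ∀ f, (f, 0) ∈ S → f ∈ Ioo x x')
    {c a : ℝ} (hc : c ∈ Ioo x x') (hcC : (c, 0) ∈ C) (ha : a < x) (haC : (a, 0) ∈ C) : False := by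
  set G : Set (Set (ℝ × ℝ)) := {S | Comp F S ∧ ∃ e ∈ Ioo x x', (e, 0) ∈ S}
  set Gl : Set (Set (ℝ × ℝ)) := {S | Comp F S ∧ (∀ e ∈ Ioo x x', (e, 0) ∉ S) ∧ ∃ t ≤ x, (t, 0) ∈ S}
  set Gr : Set (Set (ℝ × ℝ)) :=
    {S | Comp F S ∧ (∀ e ∈ Ioo x x', (e, 0) ∉ S) ∧ ∃ t, x' ≤ t ∧ (t, 0) ∈ S}
  set A : Set (ℝ × ℝ) := C ∩ (Icc x x' ×ˢ {0})
  set A' : Set (ℝ × ℝ) := C ∩ ((Ioo x x')ᶜ ×ˢ {0})
  have hA : IsClosed A := H.cpt.isClosed.inter (isClosed_Icc.prod isClosed_singleton)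
  have hA' : IsClosed A' :=
    H.cpt.isClosed.inter (isOpen_Ioo.isClosed_compl.prod isClosed_singleton)
  have hY : IsClosed (A ∪ ⋃₀ G) := by
    rw [← closure_subset_iff_isClosed, closure_union, hA.closure_eq]
    refine union_subset subset_union_left fun q hq => ?_
    by_cases hqn : q ∈ ⋃₀ G
    · exact Or.inr hqn
    obtain ⟨hqC, hq0, -⟩ := H.low_near (fun S hS => hS.1) hq hqn
    refine Or.inl ⟨hqC, ⟨not_lt.1 fun h => hx ?_, not_lt.1 fun h => hx' ?_⟩, hq0⟩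
    · refine H.hugL (fun S hS => hS.1) hq hqn h (fun S ⟨_, e, he, heS⟩ => ⟨e, he.1.le, heS⟩) ?_
      rintro S ⟨hS, e, he, heS⟩ t ht htS
      exact lt_asymm ht.2 (hin S hS e he heS t htS).1
    · refine H.hugR (fun S hS => hS.1) hq hqn h (fun S ⟨_, e, he, heS⟩ => ⟨e, he.2.le, heS⟩) ?_
      rintro S ⟨hS, e, he, heS⟩ t ht htS
      exact lt_asymm ht.1 (hin S hS e he heS t htS).2
  have hY' : IsClosed (A' ∪ (⋃₀ Gl ∪ ⋃₀ Gr)) := by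
    rw [← closure_subset_iff_isClosed, closure_union, hA'.closure_eq, closure_union]
    refine union_subset subset_union_left (union_subset (fun q hq => ?_) fun q hq => ?_)
    · by_cases hqn : q ∈ ⋃₀ Gl
      · exact Or.inr (Or.inl hqn)
      obtain ⟨hqC, hq0, -⟩ := H.low_near (fun S hS => hS.1) hq hqn
      exact Or.inl ⟨hqC, fun h => hx (H.hugR (fun S hS => hS.1) hq hqn h.1 (fun S hS => hS.2.2)
        fun S hS t ht => hS.2.1 t ⟨ht.1, ht.2.trans h.2⟩), hq0⟩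
    · by_cases hqn : q ∈ ⋃₀ Gr
      · exact Or.inr (Or.inr hqn)
      obtain ⟨hqC, hq0, -⟩ := H.low_near (fun S hS => hS.1) hq hqn
      exact Or.inl ⟨hqC, fun h => hx' (H.hugL (fun S hS => hS.1) hq hqn h.2 (fun S hS => hS.2.2)
        fun S hS t ht => hS.2.1 t ⟨h.1.trans ht.1, ht.2⟩), hq0⟩
  have sY : A ∪ ⋃₀ G ⊆ C :=
    union_subset inter_subset_left (sUnion_subset fun S hS => H.csub hS.1)
  have sY' : A' ∪ (⋃₀ Gl ∪ ⋃₀ Gr) ⊆ C := union_subset inter_subset_left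
    (union_subset (sUnion_subset fun S hS => H.csub hS.1) (sUnion_subset fun S hS => H.csub hS.1))
  have hcov : C = (A ∪ ⋃₀ G) ∪ (A' ∪ (⋃₀ Gl ∪ ⋃₀ Gr)) := by
    refine Subset.antisymm (fun z hz => ?_) (union_subset sY sY')
    rcases (H.sub hz).2.2.1.eq_or_lt with h0 | h0
    · by_cases h : z.1 ∈ Ioo x x'
      · exact Or.inl (Or.inl ⟨hz, Ioo_subset_Icc_self h, h0.symm⟩)
      · exact Or.inr (Or.inl ⟨hz, h, h0.symm⟩)
    · obtain ⟨S, W, hS, -, hzW, hs⟩ := H.up hz h0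
      have hzS := hs ⟨hz, hzW⟩
      by_cases h : ∃ e ∈ Ioo x x', (e, 0) ∈ S
      · exact Or.inl (Or.inr ⟨S, ⟨hS, h⟩, hzS⟩)
      push Not at h
      obtain ⟨t, ht⟩ := H.meetJ hS
      rcases le_or_gt t x with h1 | h1
      · exact Or.inr (Or.inr (Or.inl ⟨S, ⟨hS, h, t, h1, ht⟩, hzS⟩))
      · exact Or.inr (Or.inr (Or.inr ⟨S, ⟨hS, h, t, not_lt.1 fun h2 => h t ⟨h1, h2⟩ ht, ht⟩, hzS⟩))
  have hint : (A ∪ ⋃₀ G) ∩ (A' ∪ (⋃₀ Gl ∪ ⋃₀ Gr)) ⊆ {(x, 0), (x', 0)} := by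
    rintro ⟨z1, z2⟩ ⟨h1, h2⟩
    have out : (∃ S, Comp F S ∧ (∀ e ∈ Ioo x x', (e, 0) ∉ S) ∧ (z1, z2) ∈ S) ∨
        (z1 ∉ Ioo x x' ∧ z2 = 0) := by
      rcases h2 with h | ⟨S, hS, h⟩ | ⟨S, hS, h⟩
      · exact Or.inr h.2
      · exact Or.inl ⟨S, hS.1, hS.2.1, h⟩
      · exact Or.inl ⟨S, hS.1, hS.2.1, h⟩
    have fin : z1 ∈ Icc x x' → z1 ∉ Ioo x x' → z2 = 0 →
        (z1, z2) ∈ ({(x, 0), (x', 0)} : Set (ℝ × ℝ)) := by
      rintro a1 a2 rfl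
      rcases eq_endpoints_or_mem_Ioo_of_mem_Icc a1 with rfl | rfl | h
      · exact Or.inl rfl
      · exact Or.inr rfl
      · exact absurd h a2
    rcases h1 with ⟨-, h1, h1'⟩ | ⟨S, ⟨hS, e, he, heS⟩, hzS⟩
    · have h0 : z2 = 0 := h1'
      rcases out with ⟨S', -, hS', hz⟩ | h
      · exact fin h1 (fun h => hS' z1 h (h0 ▸ hz)) h0
      · exact fin h1 h.1 h0
    · rcases out with ⟨S', hS', hn, hz⟩ | ⟨h, rfl⟩
      · exact absurd (H.ceq hS hS' hzS hz ▸ heS) (hn e he)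
      · exact absurd (hin S hS e he heS z1 hzS) h
  rcases two_point H.conn (H.cpt.of_isClosed_subset hY sY) (H.cpt.of_isClosed_subset hY' sY') hcov
    hint (w := (c, 0)) (w' := (a, 0)) (Or.inl ⟨hcC, Ioo_subset_Icc_self hc, rfl⟩)
    (Or.inl ⟨haC, fun h => lt_asymm ha h.1, rfl⟩)
    (by simp [hc.1.ne', hc.2.ne]) (by simp [ha.ne, (ha.trans (hc.1.trans hc.2)).ne]) with h | h
  · exact hx (H.cov _ h.1 h.2)
  · exact hx' (H.cov _ h.1 h.2)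

omit H [Countable I] in
/-- Chords over the interval `[u, v]`. -/
def Chord (F : I → Set (ℝ × ℝ)) (u v a b : ℝ) (S : Set (ℝ × ℝ)) : Prop :=
  Comp F S ∧ u ≤ a ∧ a ≤ b ∧ b ≤ v ∧ (a, 0) ∈ S ∧ (b, 0) ∈ S

omit H [Countable I] in
/-- Maximal chords. -/
def MaxC (F : I → Set (ℝ × ℝ)) (u v a b : ℝ) (S : Set (ℝ × ℝ)) : Prop :=
  Chord F u v a b S ∧ ∀ a' b' S', Chord F u v a' b' S' → a' ≤ a → b ≤ b' → a' = a ∧ b' = b

omit [Countable I] in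
theorem max_of_finite {u v a b : ℝ} {S : Set (ℝ × ℝ)} (h : Chord F u v a b S)
    (hf : {S' | ∃ a' b', Chord F u v a' b' S' ∧ a' ≤ a ∧ b ≤ b'}.Finite) :
    ∃ a' b' S', MaxC F u v a' b' S' ∧ a' ≤ a ∧ b ≤ b' := by
  set T := {S' | ∃ a' b', Chord F u v a' b' S' ∧ a' ≤ a ∧ b ≤ b'}
  have hT : ∀ S' ∈ T, Comp F S' := fun _ ⟨_, _, h, _⟩ => h.1
  have hST : S ∈ T := ⟨a, b, h, le_rfl, le_rfl⟩
  obtain ⟨a₁, ⟨ha1, ha2⟩, hmin⟩ := ((H.trace_cpt (S := ⋃ S' ∈ T, S')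
    (hf.isClosed_biUnion fun S' hS' => (H.ccpt (hT S' hS')).isClosed)
    (iUnion₂_subset fun S' hS' => H.csub (hT S' hS'))).inter_right
    (isClosed_Icc (a := u) (b := a))).exists_isLeast
    ⟨a, mem_biUnion hST h.2.2.2.2.1, h.2.1, le_rfl⟩
  obtain ⟨S₁, hS₁, haS⟩ := mem_iUnion₂.1 ha1
  obtain ⟨a', b', hch, e1, e2⟩ := id hS₁
  obtain ⟨b₁, ⟨hb1, hb2⟩, hmax⟩ := ((H.trace_cpt (H.ccpt hch.1).isClosed (H.csub hch.1)).inter_right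
    (isClosed_Icc (a := b) (b := v))).exists_isGreatest ⟨b', hch.2.2.2.2.2, e2, hch.2.2.2.1⟩
  refine ⟨a₁, b₁, S₁, ⟨⟨hch.1, ha2.1, ha2.2.trans (h.2.2.1.trans hb2.1), hb2.2, haS, hb1⟩,
    fun a₂ b₂ S₂ h₂ l1 l2 => ?_⟩, ha2.2, hb2.1⟩
  have hS₂ : S₂ ∈ T := ⟨a₂, b₂, h₂, l1.trans ha2.2, hb2.1.trans l2⟩
  have ea : a₂ = a₁ :=
    le_antisymm l1 (hmin ⟨mem_biUnion hS₂ h₂.2.2.2.2.1, h₂.2.1, l1.trans ha2.2⟩)
  subst ea
  obtain rfl := H.ceq h₂.1 hch.1 h₂.2.2.2.2.1 haS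
  exact ⟨rfl, le_antisymm (hmax ⟨h₂.2.2.2.2.2, hb2.1.trans l2, h₂.2.2.2.1⟩) l2⟩

omit [Countable I] in
theorem chord_higher {u v a b a' b' : ℝ} {S S' : Set (ℝ × ℝ)} (h : Chord F u v a b S)
    (h' : Chord F u v a' b' S') (l1 : a' ≤ a) (l2 : b ≤ b') (hne : S' ≠ S) {z : ℝ × ℝ}
    (hz : z ∈ S) : ∃ w ∈ S', z.2 < w.2 := by
  have n1 : a' ≠ a := fun e => hne (H.ceq h'.1 h.1 h'.2.2.2.2.1 (e ▸ h.2.2.2.2.1))
  have n2 : b ≠ b' := fun e => hne (H.ceq h'.1 h.1 h'.2.2.2.2.2 (e ▸ h.2.2.2.2.2))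
  exact H.chigher h'.1 h.1 hne h'.2.2.2.2.1 h'.2.2.2.2.2 h.2.2.2.2.1 (lt_of_le_of_ne l1 n1)
    (h.2.2.1.trans_lt (lt_of_le_of_ne l2 n2)) hz

omit [Countable I] in
theorem exists_max {u v a b : ℝ} {S : Set (ℝ × ℝ)} (h : Chord F u v a b S) :
    ∃ a' b' S', MaxC F u v a' b' S' ∧ a' ≤ a ∧ b ≤ b' := by
  by_cases hc : ∀ a' b' S', Chord F u v a' b' S' → a' ≤ a → b ≤ b' → S' = S
  · exact H.max_of_finite h ((finite_singleton S).subset fun S' ⟨a', b', h', l1, l2⟩ =>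
      hc a' b' S' h' l1 l2)
  push Not at hc
  obtain ⟨a₁, b₁, S₁, h₁, l1, l2, hne⟩ := hc
  obtain ⟨w, hw, hw0⟩ := H.chord_higher h h₁ l1 l2 hne h.2.2.2.2.1
  obtain ⟨a', b', S', hm, m1, m2⟩ := H.max_of_finite h₁
    (((H.finite_high hw0).insert S₁).subset fun S' ⟨a', b', h', k1, k2⟩ => by
      by_cases e : S' = S₁
      · exact Or.inl e
      · obtain ⟨w', hw', hlt⟩ := H.chord_higher h₁ h' k1 k2 e hw
        exact Or.inr ⟨h'.1, w', hw', hlt.le⟩)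
  exact ⟨a', b', S', hm, m1.trans l1, l2.trans m2⟩

omit [Countable I] in
theorem max_le {u v a b a' b' : ℝ} {S S' : Set (ℝ × ℝ)} (h : MaxC F u v a b S)
    (h' : MaxC F u v a' b' S') (l1 : a ≤ a') (l2 : a' ≤ b) : a = a' := by
  obtain ⟨⟨hS, u1, u2, u3, ha, hb⟩, hm⟩ := h
  obtain ⟨⟨hS', v1, v2, v3, ha', hb'⟩, hm'⟩ := h'
  rcases le_total b' b with l3 | l3
  · exact (hm' a b S ⟨hS, u1, u2, u3, ha, hb⟩ l1 l3).1
  by_cases e : S = S'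
  · subst e
    exact (hm' a b' S ⟨hS, u1, l1.trans v2, v3, ha, hb'⟩ l1 le_rfl).1
  by_contra hne
  have n1 : a' ≠ b := fun e' => e (H.ceq hS hS' hb (e' ▸ ha'))
  have n2 : b ≠ b' := fun e' => e (H.ceq hS hS' hb (e' ▸ hb'))
  exact H.nocross hS hS' e ha hb ha' hb' (lt_of_le_of_ne l1 hne) (lt_of_le_of_ne l2 n1)
    (lt_of_le_of_ne l3 n2)

omit [Countable I] in
theorem max_eq {u v a b a' b' : ℝ} {S S' : Set (ℝ × ℝ)} (h : MaxC F u v a b S)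
    (h' : MaxC F u v a' b' S') (l1 : a ≤ b') (l2 : a' ≤ b) : a = a' := by
  rcases le_total a a' with l | l
  · exact H.max_le h h' l l2
  · exact (H.max_le h' h l l1).symm

/-- If every uncovered point between `u` and `v` lies under a chord, `u` and `v` have the same
index. -/
theorem interval {u v : ℝ} (huv : u < v) {i j : I} (hu : (u, 0) ∈ F i) (hv : (v, 0) ∈ F j)
    (h : ∀ x ∈ Ioo u v, ¬ Cov F x → ∃ a b S, Chord F u v a b S ∧ a < x ∧ x < b) : i = j := by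
  set G : I → Set ℝ := fun k =>
    {t | ∃ a b S, MaxC F u v a b S ∧ a ≤ t ∧ t ≤ b ∧ S ⊆ F k} with hG
  have ex : ∀ t ∈ Icc u v, ∃ a b S, MaxC F u v a b S ∧ a ≤ t ∧ t ≤ b := by
    intro t ht
    by_cases hc : Cov F t
    · obtain ⟨k, hk⟩ := hc
      obtain ⟨S, hS, htS⟩ := comp_of hk
      exact H.exists_max ⟨hS, ht.1, le_rfl, ht.2, htS, htS⟩
    · rcases eq_endpoints_or_mem_Ioo_of_mem_Icc ht with rfl | rfl | ht'
      · exact absurd ⟨i, hu⟩ hc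
      · exact absurd ⟨j, hv⟩ hc
      obtain ⟨a, b, S, hS, l1, l2⟩ := h t ht' hc
      obtain ⟨a', b', S', hm, m1, m2⟩ := H.exists_max hS
      exact ⟨a', b', S', hm, m1.trans l1.le, l2.le.trans m2⟩
  obtain ⟨k, hk⟩ := sier_Ioo G (fun k l hkl => by
    refine disjoint_left.2 ?_
    rintro t ⟨a, b, S, hm, l1, l2, hs⟩ ⟨a', b', S', hm', l1', l2', hs'⟩
    obtain rfl := H.max_eq hm hm' (l1.trans l2') (l1'.trans l2)
    exact hkl (H.idx (hs hm.1.2.2.2.2.1) (hs' hm'.1.2.2.2.2.1))) (fun k => by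
    rw [← closure_subset_iff_isClosed]
    intro t ht
    have htI : t ∈ Icc u v := closure_minimal (show G k ⊆ Icc u v by
      rintro s ⟨a, b, S, hm, l1, l2, -⟩
      exact ⟨hm.1.2.1.trans l1, l2.trans hm.1.2.2.2.1⟩) isClosed_Icc ht
    obtain ⟨a, b, S, hm, l1, l2⟩ := ex t htI
    obtain ⟨l, hl⟩ := hm.1.1.subF
    refine ⟨a, b, S, hm, l1, l2, ?_⟩
    by_contra hn
    have hcl : IsClosed {s : ℝ | (s, 0) ∈ F k} :=
      (H.cl k).preimage (f := fun t : ℝ => ((t, 0) : ℝ × ℝ)) (by fun_prop)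
    have na : a ∉ {s : ℝ | (s, 0) ∈ F k} := fun e => hn (H.idx (hl hm.1.2.2.2.2.1) e ▸ hl)
    have nb : b ∉ {s : ℝ | (s, 0) ∈ F k} := fun e => hn (H.idx (hl hm.1.2.2.2.2.2) e ▸ hl)
    obtain ⟨ε, hε, hεa⟩ := Metric.isOpen_iff.1 hcl.isOpen_compl a na
    obtain ⟨δ, hδ, hδb⟩ := Metric.isOpen_iff.1 hcl.isOpen_compl b nb
    obtain ⟨s, ⟨a', b', S', hm', k1, k2, hs'⟩, hd⟩ :=
      Metric.mem_closure_iff.1 ht (min ε δ) (lt_min hε hδ)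
    rw [Real.dist_eq, abs_lt] at hd
    have m1 := min_le_left ε δ
    have m2 := min_le_right ε δ
    rcases lt_or_ge b' a with c1 | c1
    · refine hεa (show b' ∈ ball a ε from ?_) (hs' hm'.1.2.2.2.2.2)
      rw [mem_ball, Real.dist_eq, abs_lt]
      constructor <;> linarith [hd.1, hd.2]
    rcases lt_or_ge b a' with c2 | c2
    · refine hδb (show a' ∈ ball b δ from ?_) (hs' hm'.1.2.2.2.2.1)
      rw [mem_ball, Real.dist_eq, abs_lt]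
      constructor <;> linarith [hd.1, hd.2]
    obtain rfl := H.max_eq hm hm' c1 c2
    exact na (hs' hm'.1.2.2.2.2.1)) huv (fun t ht => by
    obtain ⟨a, b, S, hm, l1, l2⟩ := ex t (Ioo_subset_Icc_self ht)
    obtain ⟨l, hl⟩ := hm.1.1.subF
    exact ⟨l, a, b, S, hm, l1, l2, hl⟩)
  obtain ⟨a, b, S, hm, l1, -, hs⟩ := hk (left_mem_Icc.2 huv.le)
  obtain ⟨a', b', S', hm', -, l2, hs'⟩ := hk (right_mem_Icc.2 huv.le)
  obtain rfl := le_antisymm l1 hm.1.2.1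
  obtain rfl := le_antisymm l2 hm'.1.2.2.2.1
  exact (H.idx hu (hs hm.1.2.2.2.2.1)).trans (H.idx (hs' hm'.1.2.2.2.2.2) hv)

theorem break_pt {u v : ℝ} (huv : u < v) {i j : I} (hu : (u, 0) ∈ F i) (hv : (v, 0) ∈ F j)
    (hij : i ≠ j) : ∃ x ∈ Ioo u v, ¬ Cov F x ∧ ∀ S, Comp F S → ∀ a b, (a, 0) ∈ S → (b, 0) ∈ S →
      u ≤ a → a < x → x < b → b ≤ v → False := by
  by_contra hcon
  refine hij (H.interval huv hu hv fun x hx hc => ?_)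
  by_contra hn
  exact hcon ⟨x, hx, hc, fun S hS a b ha hb l1 l2 l3 l4 =>
    hn ⟨a, b, S, ⟨hS, l1, (l2.trans l3).le, l4, ha, hb⟩, l2, l3⟩⟩

end Ctx

end Pool.Agent.MP_a3a891_gt.H97
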