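import Pool.Agent.MP_a3a891_gt.H97.Planar

/-! Induction over the nesting of components. -/

open Set Topology Filter Metric

namespace Pool.Agent.MP_a3a891_gt.H97

/-- Components that span a point of `S`. -/
def Anc {I : Type} (F : I → Set (ℝ × ℝ)) (S : Set (ℝ × ℝ)) : Set (Set (ℝ × ℝ)) :=
  {P | Comp F P ∧ P ≠ S ∧ ∃ a b c, (a, 0) ∈ P ∧ (b, 0) ∈ P ∧ (c, 0) ∈ S ∧ a < c ∧ c < b}

namespace Ctx

variable {C : Set (ℝ × ℝ)} {I : Type} {F : I → Set (ℝ × ℝ)} (H : Ctx C F)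
include H

theorem between {S P : Set (ℝ × ℝ)} (hS : Comp F S) (hP : Comp F P) (hne : P ≠ S) {a b c : ℝ}
    (ha : (a, 0) ∈ P) (hb : (b, 0) ∈ P) (hc : (c, 0) ∈ S) (l1 : a < c) (l2 : c < b) {t : ℝ}
    (ht : (t, 0) ∈ S) : a < t ∧ t < b := by
  constructor
  · rcases lt_trichotomy a t with h | h | h
    · exact h
    · exact absurd (H.ceq hP hS ha (h ▸ ht)) hne
    · exact (H.nocross hS hP hne.symm ht hc ha hb h l1 l2).elim
  · rcases lt_trichotomy t b with h | h | h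
    · exact h
    · exact absurd (H.ceq hP hS hb (h ▸ ht)) hne
    · exact (H.nocross hP hS hne ha hb hc ht l1 l2 h).elim

theorem anc_high {S P : Set (ℝ × ℝ)} (hS : Comp F S) (hP : P ∈ Anc F S) {z : ℝ × ℝ}
    (hz : z ∈ S) : ∃ w ∈ P, z.2 < w.2 := by
  obtain ⟨hP, hne, a, b, c, ha, hb, hc, l1, l2⟩ := hP
  exact H.chigher hP hS hne ha hb hc l1 l2 hz

theorem anc_finite {S : Set (ℝ × ℝ)} (hS : Comp F S) {z : ℝ × ℝ} (hz : z ∈ S) (h0 : 0 < z.2) :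
    (Anc F S).Finite :=
  (H.finite_high h0).subset fun _ hP =>
    let ⟨w, hw, h⟩ := H.anc_high hS hP hz; ⟨hP.1, w, hw, h.le⟩

theorem anc_ssub {S P : Set (ℝ × ℝ)} (hS : Comp F S) (hP : P ∈ Anc F S) :
    Anc F P ⊂ Anc F S := by
  refine ⟨?_, fun h => (h hP).2.1 rfl⟩
  obtain ⟨hP, hne, a, b, c, ha, hb, hc, l1, l2⟩ := hP
  rintro Q ⟨hQ, hne', a', b', c', ha', hb', hc', k1, k2⟩
  have m1 := (H.between hP hQ hne' ha' hb' hc' k1 k2 ha).1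
  have m2 := (H.between hP hQ hne' ha' hb' hc' k1 k2 hb).2
  refine ⟨hQ, ?_, a', b', c, ha', hb', hc, m1.trans l1, l2.trans m2⟩
  rintro rfl
  exact lt_asymm m1 (H.between hQ hP hne ha hb hc l1 l2 ha').1

variable [Countable I]

theorem child {S : Set (ℝ × ℝ)} (hS : Comp F S) (hf : (Anc F S).Finite)
    (hne : (Anc F S).Nonempty) {j : I} (hj : S ⊆ F j) : ∃ P ∈ Anc F S, P ⊆ F j := by
  obtain ⟨c, d, hc, hd, hcd⟩ := H.ends hS
  have span : ∀ P ∈ Anc F S, ∃ a b, (a, 0) ∈ P ∧ (b, 0) ∈ P ∧ a < c ∧ d < b := by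
    rintro P ⟨hP, hn, a, b, e, ha, hb, he, l1, l2⟩
    exact ⟨a, b, ha, hb, (H.between hS hP hn ha hb he l1 l2 hc).1,
      (H.between hS hP hn ha hb he l1 l2 hd).2⟩
  obtain ⟨P₁, hP₁⟩ := hne
  obtain ⟨a₁, -, ha₁, -, l₁, -⟩ := span P₁ hP₁
  obtain ⟨a, ⟨ha1, ha2⟩, hmax⟩ := ((H.trace_cpt (S := ⋃ P ∈ Anc F S, P)
    (hf.isClosed_biUnion fun P hP => (H.ccpt hP.1).isClosed)
    (iUnion₂_subset fun P hP => H.csub hP.1)).inter_right
    (isClosed_Iic (a := c))).exists_isGreatest ⟨a₁, mem_biUnion hP₁ ha₁, l₁.le⟩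
  obtain ⟨P, hP, ha⟩ := mem_iUnion₂.1 ha1
  obtain ⟨-, b₁, -, hb₁, -, l₂⟩ := span P hP
  obtain ⟨b, ⟨hb, hb2⟩, hmin⟩ := ((H.trace_cpt (H.ccpt hP.1).isClosed (H.csub hP.1)).inter_right
    (isClosed_Ici (a := d))).exists_isLeast ⟨b₁, hb₁, l₂.le⟩
  have hac : a < c := lt_of_le_of_ne ha2 fun e => hP.2.1 (H.ceq hP.1 hS ha (e ▸ hc))
  have hdb : d < b := lt_of_le_of_ne hb2 fun e => hP.2.1 (H.ceq hP.1 hS hb (e ▸ hd))
  have hcd' : c ≤ d := (hcd d hd).1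
  obtain ⟨i, hi⟩ := hP.1.subF
  refine ⟨P, hP, ?_⟩
  by_contra hn
  have hij : i ≠ j := fun e => hn (e ▸ hi)
  obtain ⟨x, hx, hxc, hxu⟩ := H.break_pt hac (hi ha) (hj hc) hij
  obtain ⟨x', hx', hxc', hxu'⟩ := H.break_pt hdb (hj hd) (hi hb) hij.symm
  have amax : ∀ Q ∈ Anc F S, ∀ t, (t, 0) ∈ Q → t ≤ c → t ≤ a := fun Q hQ t ht l =>
    hmax ⟨mem_biUnion hQ ht, l⟩
  refine H.sep hxc hxc' (fun Q hQ e he heQ f hfQ => ?_) ⟨hx.2, hcd'.trans_lt hx'.1⟩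
    (H.csub hS hc) hx.1 (H.csub hP.1 ha)
  by_cases hQS : Q = S
  · subst hQS
    exact ⟨hx.2.trans_le (hcd f hfQ).1, (hcd f hfQ).2.trans_lt hx'.1⟩
  have hab : ∀ {s t : ℝ}, (s, 0) ∈ Q → (t, 0) ∈ Q → Q ≠ P → s < a → a < t → t < b → False :=
    fun hs ht hQP k1 k2 k3 => H.nocross hQ hP.1 hQP hs ht ha hb k1 k2 k3
  have hae : a < e := hx.1.trans he.1
  have heb : e < b := he.2.trans hx'.2
  have hQP : Q ≠ P := by
    rintro rfl
    rcases le_or_gt e c with k | k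
    · exact absurd (amax Q hP e heQ k) (not_le.2 hae)
    · have := (H.between hS hQ hQS ha heQ hc hac k hd).2
      exact absurd (hmin ⟨heQ, this.le⟩) (not_le.2 heb)
  constructor
  · by_contra hcon
    have hfx : f < x := lt_of_le_of_ne (not_lt.1 hcon) fun e => hxc (e ▸ hQ.cov hfQ)
    rcases lt_or_ge f a with k | k
    · exact hab hfQ heQ hQP k hae heb
    rcases le_or_gt e c with k' | k'
    · exact hxu Q hQ f e hfQ heQ k hfx he.1 k'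
    · have := amax Q ⟨hQ, hQS, f, e, c, hfQ, heQ, hc, hfx.trans hx.2, k'⟩ f hfQ
        (hfx.trans hx.2).le
      exact hQP (H.ceq hQ hP.1 hfQ (le_antisymm this k ▸ ha))
  · by_contra hcon
    have hfx : x' < f := lt_of_le_of_ne (not_lt.1 hcon) fun e => hxc' (e ▸ hQ.cov hfQ)
    rcases lt_or_ge b f with k | k
    · exact H.nocross hP.1 hQ hQP.symm ha hb heQ hfQ hae heb k
    rcases le_or_gt d e with k' | k'
    · exact hxu' Q hQ e f heQ hfQ k' he.2 hfx k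
    · have h1 := (H.between hS hQ hQS heQ hfQ hd k' (hx'.1.trans hfx) hc).1
      exact absurd (amax Q ⟨hQ, hQS, e, f, d, heQ, hfQ, hd, k', hx'.1.trans hfx⟩ e heQ h1.le)
        (not_le.2 hae)

theorem root_lt {S S' : Set (ℝ × ℝ)} (hS : Comp F S) (hS' : Comp F S') (h : Anc F S = ∅)
    (h' : Anc F S' = ∅) {i j : I} (hi : S ⊆ F i) (hj : S' ⊆ F j) {d c : ℝ} (hd : (d, 0) ∈ S)
    (hc : (c, 0) ∈ S') (hdc : d < c) (h1 : ∀ t, (t, 0) ∈ S → t ≤ d)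
    (h2 : ∀ t, (t, 0) ∈ S' → c ≤ t) : i = j := by
  by_contra hij
  obtain ⟨x, hx, hxc, hxu⟩ := H.break_pt hdc (hi hd) (hj hc) hij
  have h2c : ¬ Cov F 2 := by
    rintro ⟨k, hk⟩
    have := (H.sub (H.subC k hk)).2.1
    norm_num at this
  have lt2 : ∀ t, ((t, 0) : ℝ × ℝ) ∈ C → t < 2 := fun t ht => by
    have : t ≤ 1 := (H.sub ht).2.1
    linarith
  refine H.sep hxc h2c (fun Q hQ e he heQ f hfQ => ⟨?_, lt2 f (H.csub hQ hfQ)⟩)
    ⟨hx.2, lt2 c (H.csub hS' hc)⟩ (H.csub hS' hc) hx.1 (H.csub hS hd)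
  by_contra hcon
  have hfx : f < x := lt_of_le_of_ne (not_lt.1 hcon) fun e => hxc (e ▸ hQ.cov hfQ)
  rcases lt_or_ge f d with k | k
  · refine (h ▸ notMem_empty Q : Q ∉ Anc F S) ⟨hQ, ?_, f, e, d, hfQ, heQ, hd, k, hx.1.trans he.1⟩
    rintro rfl
    exact absurd (h1 e heQ) (not_le.2 (hx.1.trans he.1))
  rcases lt_or_ge c e with k' | k'
  · refine (h' ▸ notMem_empty Q : Q ∉ Anc F S')
      ⟨hQ, ?_, f, e, c, hfQ, heQ, hc, hfx.trans hx.2, k'⟩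
    rintro rfl
    exact absurd (h2 f hfQ) (not_le.2 (hfx.trans hx.2))
  exact hxu Q hQ f e hfQ heQ k hfx he.1 k'

theorem root {S S' : Set (ℝ × ℝ)} (hS : Comp F S) (hS' : Comp F S') (h : Anc F S = ∅)
    (h' : Anc F S' = ∅) {i j : I} (hi : S ⊆ F i) (hj : S' ⊆ F j) : i = j := by
  obtain ⟨c, d, hc, hd, hcd⟩ := H.ends hS
  obtain ⟨c', d', hc', hd', hcd'⟩ := H.ends hS'
  by_cases e : S = S'
  · exact H.idx (hi hc) (hj (e ▸ hc))
  rcases lt_or_ge d c' with k | k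
  · exact H.root_lt hS hS' h h' hi hj hd hc' k (fun t ht => (hcd t ht).2) fun t ht => (hcd' t ht).1
  rcases lt_or_ge d' c with k' | k'
  · exact (H.root_lt hS' hS h' h hj hi hd' hc k' (fun t ht => (hcd' t ht).2)
      fun t ht => (hcd t ht).1).symm
  exfalso
  have n1 : c' < d := lt_of_le_of_ne k fun e' => e (H.ceq hS hS' hd (e' ▸ hc'))
  have n2 : c < d' := lt_of_le_of_ne k' fun e' => e (H.ceq hS hS' hc (e' ▸ hd'))
  rcases lt_trichotomy d d' with m | m | m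
  · exact (h ▸ notMem_empty S' : S' ∉ Anc F S) ⟨hS', Ne.symm e, c', d', d, hc', hd', hd, n1, m⟩
  · exact e (H.ceq hS hS' hd (m ▸ hd'))
  · exact (h' ▸ notMem_empty S : S ∉ Anc F S') ⟨hS, e, c, d, d', hc, hd, hd', n2, m⟩

theorem to_root (n : ℕ) : ∀ S, Comp F S → (∃ z ∈ S, 0 < z.2) → (Anc F S).ncard = n → ∀ j,
    S ⊆ F j → ∃ R, Comp F R ∧ Anc F R = ∅ ∧ R ⊆ F j := by
  induction n using Nat.strong_induction_on with
  | _ n ih =>
    rintro S hS ⟨z, hz, h0⟩ rfl j hj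
    rcases (Anc F S).eq_empty_or_nonempty with he | hne
    · exact ⟨S, hS, he, hj⟩
    have hf := H.anc_finite hS hz h0
    obtain ⟨P, hP, hPj⟩ := H.child hS hf hne hj
    obtain ⟨w, hw, hlt⟩ := H.anc_high hS hP hz
    exact ih _ (ncard_lt_ncard (H.anc_ssub hS hP) hf) P hP.1 ⟨w, hw, h0.trans hlt⟩ rfl j hPj

theorem upper {z w : ℝ × ℝ} (hz : 0 < z.2) (hw : 0 < w.2) {i j : I} (hi : z ∈ F i)
    (hj : w ∈ F j) : i = j := by
  obtain ⟨R, hR, h1, h2⟩ := H.to_root _ _ ⟨i, z, hi, rfl⟩ ⟨z, mem_connectedComponentIn hi, hz⟩ rfl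
    i (connectedComponentIn_subset _ _)
  obtain ⟨R', hR', h1', h2'⟩ := H.to_root _ _ ⟨j, w, hj, rfl⟩
    ⟨w, mem_connectedComponentIn hj, hw⟩ rfl j (connectedComponentIn_subset _ _)
  exact H.root hR hR' h1 h1' h2 h2'

theorem free_seg {N : Set (ℝ × ℝ)} (hN : IsClosed N) (hup : ∀ z ∈ C, 0 < z.2 → z ∈ N) {a b : ℝ}
    (hab : a < b) (h : ∀ s ∈ Ioo a b, (s, 0) ∈ C ∧ (s, 0) ∉ N) :
    ∃ i, ∀ t ∈ Icc a b, (t, 0) ∈ F i := by
  refine H.seg hab fun t ht => H.cov _ (h t ht).1 ?_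
  refine ls_of_line (V := Nᶜ) hN.isOpen_compl continuous_fst
    (γ := fun t : ℝ => ((t, 0) : ℝ × ℝ)) (by fun_prop) (fun _ => rfl) ht h fun q hq => ?_
  have := connectedComponentIn_subset _ _ hq
  refine Prod.ext rfl ?_
  by_contra h0
  exact this.2 (hup q this.1 (lt_of_le_of_ne (H.sub this.1).2.2.1 (Ne.symm h0)))

/-- The context is contradictory for a nondegenerate continuum. -/
theorem absurd_ctx (hnt : C.Nontrivial) : False := by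
  have flat : ∀ z ∈ C, ¬ 0 < z.2 → z = (z.1, 0) := fun z hz h =>
    Prod.ext rfl (le_antisymm (not_lt.1 h) (H.sub hz).2.2.1)
  by_cases hex : ∃ z ∈ C, 0 < z.2
  swap
  · have fl : ∀ z ∈ C, z = (z.1, 0) := fun z hz => flat z hz fun h => hex ⟨z, hz, h⟩
    obtain ⟨a, b, hab⟩ : ∃ a b, Prod.fst '' C = Icc a b :=
      ⟨_, _, eq_Icc_of_connected_compact
        (IsConnected.image ⟨hnt.nonempty, H.conn⟩ _ continuous_fst.continuousOn)
        (H.cpt.image continuous_fst)⟩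
    have hm : ∀ p ∈ C, p.1 ∈ Icc a b := fun p hp => hab ▸ mem_image_of_mem _ hp
    have hlt : a < b := by
      obtain ⟨p, hp, q, hq, hpq⟩ := hnt
      by_contra hcon
      apply hpq
      rw [fl p hp, fl q hq, show p.1 = q.1 by
        linarith [(hm p hp).1, (hm p hp).2, (hm q hq).1, (hm q hq).2, not_lt.1 hcon]]
    obtain ⟨i, hi⟩ := H.free_seg isClosed_empty (fun z hz h => (hex ⟨z, hz, h⟩).elim) hlt
      fun s hs => by
        obtain ⟨p, hp, rfl⟩ : s ∈ Prod.fst '' C := hab ▸ Ioo_subset_Icc_self hs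
        exact ⟨fl p hp ▸ hp, notMem_empty _⟩
    exact H.proper i fun z hz => fl z hz ▸ hi _ (hm z hz)
  obtain ⟨z, hz, h0⟩ := hex
  have mem : ∀ w ∈ C, 0 < w.2 → ∃ j, w ∈ F j := fun w hw h => by
    obtain ⟨W, -, hwW, -, j, hj⟩ := H.loc w hw h
    exact ⟨j, hj ⟨hw, hwW⟩⟩
  obtain ⟨i, hi⟩ := mem z hz h0
  have hup : ∀ w ∈ C, 0 < w.2 → w ∈ F i := fun w hw h => by
    obtain ⟨j, hj⟩ := mem w hw h
    exact H.upper h h0 hj hi ▸ hj
  obtain ⟨q, hq, hqF⟩ := not_subset.1 (H.proper i)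
  obtain ⟨t, rfl⟩ : ∃ t, q = (t, 0) := ⟨_, flat q hq fun h => hqF (hup q hq h)⟩
  obtain ⟨t0, t1, -, -⟩ := H.sub hq
  have hT : IsClosed {s : ℝ | (s, 0) ∈ F i} :=
    (H.cl i).preimage (f := fun t : ℝ => ((t, 0) : ℝ × ℝ)) (by fun_prop)
  obtain ⟨α, ⟨a1, a2⟩, hα⟩ := ((isCompact_Icc (a := (-1 : ℝ)) (b := t)).inter_right
    (hT.union (isClosed_singleton (x := (-1 : ℝ))))).exists_isGreatest
    ⟨-1, ⟨le_rfl, by linarith⟩, Or.inr rfl⟩
  obtain ⟨β, ⟨b1, b2⟩, hβ⟩ := ((isCompact_Icc (a := t) (b := 2)).inter_right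
    (hT.union (isClosed_singleton (x := (2 : ℝ))))).exists_isLeast
    ⟨2, ⟨by linarith, le_rfl⟩, Or.inr rfl⟩
  have hαt : α < t := lt_of_le_of_ne a1.2 fun e => by
    rcases a2 with h | h
    · exact hqF (e ▸ h)
    · have : α = -1 := h
      linarith
  have htβ : t < β := lt_of_le_of_ne b1.1 fun e => by
    rcases b2 with h | h
    · exact hqF (e ▸ h)
    · have : β = 2 := h
      linarith
  have nl : ∀ s, α < s → s ≤ t → (s, 0) ∉ F i := fun s l1 l2 h =>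
    absurd (hα ⟨⟨a1.1.trans l1.le, l2⟩, Or.inl h⟩) (not_le.2 l1)
  have nr : ∀ s, t ≤ s → s < β → (s, 0) ∉ F i := fun s l1 l2 h =>
    absurd (hβ ⟨⟨l1, l2.le.trans b1.2⟩, Or.inl h⟩) (not_le.2 l2)
  by_cases hl : ∀ s ∈ Ioo α t, (s, 0) ∈ C
  · obtain ⟨j, hj⟩ := H.free_seg (H.cl i) hup hαt fun s hs => ⟨hl s hs, nl s hs.1 hs.2.le⟩
    have hαj := hj α (left_mem_Icc.2 hαt.le)
    rcases a2 with h | h
    · exact hqF (H.idx hαj h ▸ hj t (right_mem_Icc.2 hαt.le))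
    · have e : α = -1 := h
      have : 0 ≤ α := (H.sub (H.subC j hαj)).1
      linarith
  by_cases hr : ∀ s ∈ Ioo t β, (s, 0) ∈ C
  · obtain ⟨j, hj⟩ := H.free_seg (H.cl i) hup htβ fun s hs => ⟨hr s hs, nr s hs.1.le hs.2⟩
    have hβj := hj β (right_mem_Icc.2 htβ.le)
    rcases b2 with h | h
    · exact hqF (H.idx hβj h ▸ hj t (left_mem_Icc.2 htβ.le))
    · have e : β = 2 := h
      have : β ≤ 1 := (H.sub (H.subC j hβj)).2.1
      linarith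
  push Not at hl hr
  obtain ⟨s₁, hs₁, n₁⟩ := hl
  obtain ⟨s₂, hs₂, n₂⟩ := hr
  obtain ⟨⟨w1, w2⟩, hw, ⟨k1, k2⟩, k3⟩ := meet_closed H.conn (A := Icc s₁ s₂ ×ˢ {0})
    (B := F i ∪ Prod.fst ⁻¹' (Ioo s₁ s₂)ᶜ) (isClosed_Icc.prod isClosed_singleton)
    ((H.cl i).union (isOpen_Ioo.isClosed_compl.preimage continuous_fst))
    (fun w hw => by
      by_cases h : 0 < w.2
      · exact Or.inr (Or.inl (hup w hw h))
      by_cases h' : w.1 ∈ Ioo s₁ s₂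
      · exact Or.inl ⟨Ioo_subset_Icc_self h', congrArg Prod.snd (flat w hw h)⟩
      · exact Or.inr (Or.inr h'))
    ⟨_, hq, ⟨hs₁.2.le, hs₂.1.le⟩, rfl⟩ ⟨z, hz, Or.inl hi⟩
  obtain rfl : w2 = 0 := k2
  rcases k3 with h | h
  · rcases le_total w1 t with l | l
    · exact nl w1 (hs₁.1.trans_le k1.1) l h
    · exact nr w1 l (k1.2.trans_lt hs₂.2) h
  · rcases eq_endpoints_or_mem_Ioo_of_mem_Icc k1 with e | e | e
    · exact n₁ (e ▸ hw)
    · exact n₂ (e ▸ hw)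
    · exact h e

end Ctx

end Pool.Agent.MP_a3a891_gt.H97
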